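import Pool.Agent.H522R5.CD.Explicit

namespace Pool.Agent.H522R5.CD

open Finset Pool.Agent.H522R5.CC

theorem near_mono {n : ℕ} {G : SimpleGraph (Fin n)} {D D' d : ℕ} (h : NearRect G D d)
    (hD : D ≤ D') : NearRect G D' d := by
  intro A B hAB hA hB
  obtain ⟨A', hA', B', hB', h1, h2⟩ := h A B hAB hA hB
  exact ⟨A', hA', B', hB', h1.trans (Nat.mul_le_mul_right _
    (Nat.pow_le_pow_right (by norm_num) hD)), h2⟩

theorem exists_s (ε : ℝ) (hε : 0 < ε) : ∃ s : ℕ, 30 * ((s : ℝ) + 1) ^ 2 / 2 ^ s ≤ ε / 2 := by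
  have h := tendsto_pow_const_div_const_pow_of_one_lt 2 (r := (2 : ℝ)) (by norm_num)
  have h2 := (h.eventually (gt_mem_nhds (show (0 : ℝ) < ε / 120 by positivity))).exists_forall_of_atTop
  obtain ⟨N, hN⟩ := h2
  refine ⟨N, ?_⟩
  have h3 := hN (N + 1) (Nat.le_succ N)
  push_cast at h3
  rw [pow_succ (2 : ℝ) N] at h3
  have h4 : 30 * ((N : ℝ) + 1) ^ 2 / 2 ^ N = 60 * (((N : ℝ) + 1) ^ 2 / (2 ^ N * 2)) := by
    field_simp
    ring
  rw [h4]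
  linarith

theorem asym (B1 : S_B1) (C1 : S_C1) (ε : ℝ) (hε : 0 < ε) : ∃ δ : ℝ, 0 < δ ∧ ∃ k₀ : ℕ,
    ∀ k : ℕ, k₀ ≤ k → ∀ b : ℕ, (b : ℝ) ≤ δ * k → ∀ n : ℕ, (2 : ℝ) ^ (ε * k) ≤ n →
      ∀ G : SimpleGraph (Fin n), (∀ d, NearRect G (b * (d + 1) + 2) d) →
        ∃ S : Finset (Fin n), G.IsNClique k S ∨ G.IsNIndepSet k S := by
  obtain ⟨s, hs⟩ := exists_s ε hε
  refine ⟨1 / 2 ^ s, by positivity, max 1 ⌈60 * ((s : ℝ) + 1) ^ 2 / ε⌉₊, ?_⟩
  intro k hk b hb n hn G hG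
  have hk1 : 1 ≤ k := le_trans (le_max_left _ _) hk
  have hk2 : 60 * ((s : ℝ) + 1) ^ 2 / ε ≤ k :=
    (Nat.le_ceil _).trans (by exact_mod_cast le_trans (le_max_right _ _) hk)
  have hbb : b ≤ k / 2 ^ s + 1 := by
    have h1 : b * 2 ^ s ≤ k := by
      have h2 : (b : ℝ) * 2 ^ s ≤ k := by
        have h3 : (0 : ℝ) < 2 ^ s := by positivity
        have h4 := mul_le_mul_of_nonneg_right hb h3.le
        calc (b : ℝ) * 2 ^ s ≤ 1 / 2 ^ s * k * 2 ^ s := h4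
          _ = k := by field_simp
      exact_mod_cast h2
    have := (Nat.le_div_iff_mul_le (by positivity : 0 < 2 ^ s)).mpr h1
    omega
  refine explicit B1 C1 (k / 2 ^ s + 1) s k n (Nat.succ_pos _) hk1 ?_ ?_ G
    (fun d => near_mono (hG d) ?_)
  · have := Nat.lt_mul_div_succ k (show 0 < 2 ^ s by positivity)
    exact this.le
  · have h1 : ((2 ^ (30 * (k / 2 ^ s + 1) * (s + 1) ^ 2) : ℕ) : ℝ) ≤ (n : ℝ) := by
      refine le_trans ?_ hn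
      rw [Nat.cast_pow, Nat.cast_ofNat, ← Real.rpow_natCast]
      apply Real.rpow_le_rpow_of_exponent_le (by norm_num)
      have h2 : ((k / 2 ^ s : ℕ) : ℝ) ≤ (k : ℝ) / 2 ^ s := by
        have := @Nat.cast_div_le ℝ _ _ _ k (2 ^ s)
        simpa using this
      have h3 : (60 * ((s : ℝ) + 1) ^ 2) ≤ k * ε := by
        rwa [div_le_iff₀ hε] at hk2
      have h4 : 30 * ((s : ℝ) + 1) ^ 2 / 2 ^ s * k ≤ ε / 2 * k :=
        mul_le_mul_of_nonneg_right hs (by positivity)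
      push_cast
      calc 30 * (((k / 2 ^ s : ℕ) : ℝ) + 1) * ((s : ℝ) + 1) ^ 2
          ≤ 30 * ((k : ℝ) / 2 ^ s + 1) * ((s : ℝ) + 1) ^ 2 := by
            have h5 : (0 : ℝ) ≤ ((s : ℝ) + 1) ^ 2 := by positivity
            nlinarith
        _ = 30 * ((s : ℝ) + 1) ^ 2 / 2 ^ s * k + 30 * ((s : ℝ) + 1) ^ 2 := by ring
        _ ≤ ε * k := by linarith
    exact_mod_cast h1
  · have := Nat.mul_le_mul_right (d + 1) hbb
    omega

end Pool.Agent.H522R5.CD
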