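import Pool.Agent.H522R5.CC.Defs

/-!
Communication complexity thresholds for exponential growth of Ramsey numbers: definitions
(`PostBPP`, `PP`) and the statements of the independent parts of the proof.
-/

namespace Pool.Agent.H522R5.CD

open Finset Pool.Agent.H522R5.CC

/-- `G` has a bounded-error public coin protocol with postselection of total cost `b`: for
vertices `x < y` the owner of `x` and the owner of `y` exchange at most `c` bits; they accept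
with probability `α` and reject with probability `β` (otherwise they abort); `α ≥ 2 β` and
`α ≥ 2^(-t)` on edges, `β ≥ 2 α` and `β ≥ 2^(-t)` on non-edges, and `t + c ≤ b`.
(`P w` and `Q w` are the protocol trees whose output is `true` on acceptance and on rejection
respectively.) -/
def PostBPP {n : ℕ} (G : SimpleGraph (Fin n)) (b : ℕ) : Prop :=
  ∃ (t c : ℕ) (Ω : Type) (_ : Fintype Ω) (p : Ω → ℝ) (P Q : Ω → Prot (Fin n)),
    t + c ≤ b ∧ (∀ w, 0 ≤ p w) ∧ ∑ w, p w = 1 ∧ (∀ w, (P w).bits ≤ c ∧ (Q w).bits ≤ c) ∧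
    ∀ x y : Fin n, x < y →
      (G.Adj x y → (1 / 2 : ℝ) ^ t ≤ acc p P x y ∧ 2 * acc p Q x y ≤ acc p P x y) ∧
      (¬ G.Adj x y → (1 / 2 : ℝ) ^ t ≤ acc p Q x y ∧ 2 * acc p P x y ≤ acc p Q x y)

/-- `G` has a public coin protocol with small advantage (PP) of total cost `b`: at most `c` bits,
acceptance probability at least `1/2 + 2^(-t)` on edges and at most `1/2 - 2^(-t)` on non-edges,
and `t + c ≤ b`. -/
def PP {n : ℕ} (G : SimpleGraph (Fin n)) (b : ℕ) : Prop :=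
  ∃ (t c : ℕ) (Ω : Type) (_ : Fintype Ω) (p : Ω → ℝ) (P : Ω → Prot (Fin n)),
    t + c ≤ b ∧ (∀ w, 0 ≤ p w) ∧ ∑ w, p w = 1 ∧ (∀ w, (P w).bits ≤ c) ∧
    ∀ x y : Fin n, x < y →
      (G.Adj x y → 1 / 2 + (1 / 2 : ℝ) ^ t ≤ acc p P x y) ∧
      (¬ G.Adj x y → acc p P x y ≤ 1 / 2 - (1 / 2 : ℝ) ^ t)

/-- the sign of a bit -/
def sg (b : Bool) : ℤ := if b = true then 1 else -1

/-! ### Parts -/

/-- N1 -/
def S_N1 : Prop := ∀ (n : ℕ) (G : SimpleGraph (Fin n)) (b d : ℕ), PostBPP G b →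
  NearRect G (b * (d + 1) + 2) d

/-- N2 -/
def S_N2 : Prop := ∀ (n : ℕ) (G : SimpleGraph (Fin n)) (b d : ℕ), PP G b →
  NearRect G (2 ^ b * (d + 1) + 2) d

/-- W1: every graph on at most `2^m` vertices has PostBPP cost at most `m + 1` -/
def S_W1 : Prop := ∀ (n m : ℕ) (G : SimpleGraph (Fin n)), n ≤ 2 ^ m → PostBPP G (m + 1)

/-- W2: nondeterministic protocols (covers by `2^b` rectangles) -/
def S_W2 : Prop := ∀ (n b : ℕ) (G : SimpleGraph (Fin n)) (A B : Fin (2 ^ b) → Set (Fin n)),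
  (∀ i, ∀ x ∈ A i, ∀ y ∈ B i, x < y → G.Adj x y) →
  (∀ x y, x < y → G.Adj x y → ∃ i, x ∈ A i ∧ y ∈ B i) → PostBPP G (b + 3)

/-- W3: bounded error randomised protocols with `c` bits have PostBPP cost at most `c + 1` -/
def S_W3 : Prop := ∀ (n c : ℕ) (G : SimpleGraph (Fin n)) (Ω : Type) [Fintype Ω] (p : Ω → ℝ)
  (P : Ω → Prot (Fin n)), (∀ w, 0 ≤ p w) → ∑ w, p w = 1 → (∀ w, (P w).bits ≤ c) →
  (∀ x y, x < y → (G.Adj x y → 2 / 3 ≤ acc p P x y) ∧ (¬ G.Adj x y → acc p P x y ≤ 1 / 3)) →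
  PostBPP G (c + 1)

/-- W4: small-bounded-error (SBP) protocols -/
def S_W4 : Prop := ∀ (n b : ℕ) (G : SimpleGraph (Fin n)), SBP G b → PostBPP G (2 * b + 1)

/-- W5: complements -/
def S_W5 : Prop := ∀ (n b : ℕ) (G : SimpleGraph (Fin n)), PostBPP G b → PostBPP Gᶜ b

/-- Z1: a proportion at least `3/32` of the sums of `m` signs is at most `-√m / 2` -/
def S_Z1 : Prop := ∀ (F : Type) [Fintype F] [DecidableEq F], 1 ≤ Fintype.card F →
  3 * 2 ^ Fintype.card F ≤ 32 * ((Finset.univ : Finset (F → Bool)).filter fun e =>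
    (∑ i, sg (e i)) < 0 ∧ (Fintype.card F : ℤ) ≤ 4 * (∑ i, sg (e i)) ^ 2).card

/-- Z2: Reed-Solomon codes -/
def S_Z2 : Prop := ∀ (p g t : ℕ), p.Prime → 1 ≤ g → t ≤ p →
  ∃ f : (Fin g → ZMod p) → Fin t → Fin p, ∀ y y', y ≠ y' →
    ((Finset.univ : Finset (Fin t)).filter fun j => f y j = f y' j).card < g

/-- Z3: few sign tables have positive (negative) sums along all of `h` nearly disjoint paths -/
def S_Z3 : Prop := ∀ (t m h g : ℕ) (f : Fin h → Fin t → Fin m) (σ : ℤ), σ = 1 ∨ σ = -1 →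
  (∀ y y', y ≠ y' → ((Finset.univ : Finset (Fin t)).filter fun j => f y j = f y' j).card ≤ g) →
  16 * (g * h) ^ 2 + 1 ≤ t →
  32 ^ h * ((Finset.univ : Finset (Fin t → Fin m → Bool)).filter fun a =>
    ∀ y, 0 < σ * ∑ j, sg (a j (f y j))).card ≤ 29 ^ h * 2 ^ (t * m)

/-- Z4: a union bound -/
def S_Z4 : Prop := ∀ (A I : Type) [Fintype A] [DecidableEq A] [Nonempty A] [Fintype I]
  (T : I → Finset A) (N h : ℕ) (q : ℝ), 0 ≤ q → (∀ i, ((T i).card : ℝ) ≤ q * Fintype.card A) →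
  (Fintype.card I : ℝ) * (N : ℝ) ^ h * q ^ h < 1 →
  ∃ a : Fin N → A, ∀ i, ((Finset.univ : Finset (Fin N)).filter fun x => a x ∈ T i).card < h

/-- Z5: the sign of a sum of `t` table entries has small PP cost -/
def S_Z5 : Prop := ∀ (N t m u v : ℕ) (a : Fin N → Fin t → Fin m → Bool)
  (f : Fin N → Fin t → Fin m) (G : SimpleGraph (Fin N)), Odd t → m ≤ 2 ^ u → 2 * t ≤ 2 ^ v →
  (∀ x y, x < y → (G.Adj x y ↔ 0 < ∑ j, sg (a x j (f y j)))) → PP G (v + u + 1)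

/-- Z6: numbers -/
def S_Z6 : Prop := ∀ h : ℕ, 16 ≤ h →
  2 * ((2 : ℝ) ^ (h / 16)) ^ h * ((2 : ℝ) ^ (h / 16)) ^ h * ((29 / 32 : ℝ) ^ h) ^ h < 1 ∧
  2 * (16 * h ^ 4 + 1) ≤ 2 ^ (4 * Nat.log 2 h + 9)

/-- Z: PP cost `O(log k)` is enough for exponential growth -/
def S_Z : Prop := ∀ h : ℕ, 16 ≤ h → ∃ G : SimpleGraph (Fin (2 ^ (h / 16))),
  PP G (8 * Nat.log 2 h + 19) ∧
  ∀ S : Finset (Fin (2 ^ (h / 16))), ¬ G.IsNClique (2 * h) S ∧ ¬ G.IsNIndepSet (2 * h) S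

end Pool.Agent.H522R5.CD
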