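import Pool.Agent.H522R5.CD.Defs

namespace Pool.Agent.H522R5.CD

open Finset Pool.Agent.H522R5.CC

theorem N1_card_sum {V : Type} (r : V → V → Prop) (A B : Finset V) [∀ x y, Decidable (r x y)] :
    ((cnt r A B : ℕ) : ℝ) = ∑ x ∈ A, ∑ y ∈ B, (if r x y then (1 : ℝ) else 0) := by
  unfold cnt
  rw [Finset.card_filter]
  push_cast
  rw [Finset.sum_product]

theorem N1_cnt_le {V : Type} (r : V → V → Prop) (A B : Finset V) :
    cnt r A B ≤ A.card * B.card := by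
  classical
  unfold cnt
  rw [← Finset.card_product]
  exact Finset.card_filter_le _ _

theorem N1_side (R2 : S_R2) {n : ℕ} {Ω : Type} [Fintype Ω] (p : Ω → ℝ) (P : Ω → Prot (Fin n))
    (c : ℕ) (hp : ∀ w, 0 ≤ p w) (hp1 : ∑ w, p w = 1) (hbits : ∀ w, (P w).bits ≤ c)
    (r r' : Fin n → Fin n → Prop) [∀ x y, Decidable (r x y)] [∀ x y, Decidable (r' x y)]
    (hr : ∀ x y, r' x y ↔ ¬ r x y)
    (T d : ℕ) (A B : Finset (Fin n)) (κ : ℝ)
    (h : κ * (A.card * B.card) ≤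
      ∑ x ∈ A, ∑ y ∈ B, acc p P x y ^ T * (if r x y then 1 else -(2 : ℝ) ^ d)) :
    ∃ A' ⊆ A, ∃ B' ⊆ B, κ * (A.card * B.card) ≤ 2 ^ (c * T) * ((A'.card : ℝ) * B'.card) ∧
      2 ^ d * cnt r' A' B' ≤ A'.card * B'.card := by
  obtain ⟨A', hA', B', hB', h1, h2⟩ := R2 (Fin n) Ω p P c hp hp1 hbits T
    (fun x y => if r x y then 1 else -(2 : ℝ) ^ d) A B
  have hcntA' : ((cnt r A' B' : ℕ) : ℝ) =
      ∑ x ∈ A', ∑ y ∈ B', (if r x y then (1 : ℝ) else 0) := N1_card_sum _ A' B'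
  have hcntN' : ((cnt r' A' B' : ℕ) : ℝ) =
      ∑ x ∈ A', ∑ y ∈ B', (if r' x y then (1 : ℝ) else 0) := N1_card_sum _ A' B'
  have hs : ∑ x ∈ A', ∑ y ∈ B', (if r x y then (1 : ℝ) else -(2 : ℝ) ^ d) =
      (cnt r A' B' : ℕ) - 2 ^ d * ((cnt r' A' B' : ℕ) : ℝ) := by
    rw [hcntA', hcntN', Finset.mul_sum, ← Finset.sum_sub_distrib]
    refine Finset.sum_congr rfl fun x _ => ?_
    rw [Finset.mul_sum, ← Finset.sum_sub_distrib]
    refine Finset.sum_congr rfl fun y _ => ?_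
    by_cases h : r x y
    · have h' : ¬ r' x y := by rw [hr]; exact not_not.mpr h
      rw [if_pos h, if_pos h, if_neg h']; ring
    · have h' : r' x y := (hr x y).2 h
      rw [if_neg h, if_neg h, if_pos h']; ring
  have hle : ((cnt r A' B' : ℕ) : ℝ) ≤ A'.card * B'.card := by
    have : cnt r A' B' ≤ A'.card * B'.card := N1_cnt_le r A' B'
    exact_mod_cast this
  rw [hs] at h1 h2
  refine ⟨A', hA', B', hB', ?_, ?_⟩
  · refine (h.trans h1).trans ?_
    refine mul_le_mul_of_nonneg_left ?_ (by positivity)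
    have : (0 : ℝ) ≤ 2 ^ d * ((cnt r' A' B' : ℕ) : ℝ) := by positivity
    linarith
  · have h8 : (2 : ℝ) ^ d * ((cnt r' A' B' : ℕ) : ℝ) ≤ A'.card * B'.card := by linarith
    exact_mod_cast h8

theorem N1 (R2 : S_R2) : S_N1 := by
  classical
  intro n G b d hG A B hAB hA hB
  obtain ⟨t, c, Ω, _, p, P, Q, htc, hp, hp1, hbits, hacc⟩ := hG
  have hacc0 : ∀ (P : Ω → Prot (Fin n)) x y, 0 ≤ acc p P x y := by
    intro P x y
    unfold acc
    refine Finset.sum_nonneg fun w _ => mul_nonneg (hp w) ?_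
    split_ifs <;> norm_num
  set κ : ℝ := ((1 / 2 : ℝ) ^ t) ^ (d + 1) with hκ
  have hκ0 : 0 < κ := by positivity
  have hpair : ∀ u v : ℝ, 0 ≤ v → (1 / 2 : ℝ) ^ t ≤ u → 2 * v ≤ u →
      κ / 2 ≤ u ^ (d + 1) * 1 + v ^ (d + 1) * (-(2 : ℝ) ^ d) := by
    intro u v hv hu huv
    have h1 : κ ≤ u ^ (d + 1) := pow_le_pow_left₀ (by positivity) hu _
    have h2 : (2 * v) ^ (d + 1) ≤ u ^ (d + 1) := pow_le_pow_left₀ (by positivity) huv _
    rw [mul_pow, pow_succ (2 : ℝ) d] at h2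
    nlinarith
  have hsum : κ / 2 * (A.card * B.card) ≤
      ∑ x ∈ A, ∑ y ∈ B, acc p P x y ^ (d + 1) * (if G.Adj x y then 1 else -(2 : ℝ) ^ d) +
      ∑ x ∈ A, ∑ y ∈ B, acc p Q x y ^ (d + 1) * (if ¬ G.Adj x y then 1 else -(2 : ℝ) ^ d) := by
    have e : κ / 2 * ((A.card : ℝ) * B.card) = ∑ x ∈ A, ∑ y ∈ B, κ / 2 := by
      simp only [Finset.sum_const, nsmul_eq_mul]
      ring
    rw [e, ← Finset.sum_add_distrib]
    refine Finset.sum_le_sum fun x hx => ?_
    rw [← Finset.sum_add_distrib]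
    refine Finset.sum_le_sum fun y hy => ?_
    obtain ⟨hy1, hy2⟩ := hacc x y (hAB x hx y hy)
    by_cases h : G.Adj x y
    · rw [if_pos h, if_neg (not_not.mpr h)]
      exact hpair _ _ (hacc0 Q x y) (hy1 h).1 (hy1 h).2
    · rw [if_neg h, if_pos h, add_comm]
      exact hpair _ _ (hacc0 P x y) (hy2 h).1 (hy2 h).2
  have hfin : ∀ A' B' : Finset (Fin n), κ / 4 * ((A.card : ℝ) * B.card) ≤
      2 ^ (c * (d + 1)) * ((A'.card : ℝ) * B'.card) →
      A.card * B.card ≤ 2 ^ (b * (d + 1) + 2) * (A'.card * B'.card) := by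
    intro A' B' h
    have h8 : ((A.card * B.card : ℕ) : ℝ) ≤
        ((2 ^ (b * (d + 1) + 2) * (A'.card * B'.card) : ℕ) : ℝ) := by
      push_cast
      have h13 : (2 : ℝ) ^ (t * (d + 1)) * κ = 1 := by
        rw [hκ, ← pow_mul, ← mul_pow]; norm_num
      have h12 : (A.card : ℝ) * B.card ≤ 4 * 2 ^ (t * (d + 1)) *
          (2 ^ (c * (d + 1)) * ((A'.card : ℝ) * B'.card)) := by
        calc (A.card : ℝ) * B.card = 4 * 2 ^ (t * (d + 1)) *
              (κ / 4 * ((A.card : ℝ) * B.card)) := by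
              have : 4 * 2 ^ (t * (d + 1)) * (κ / 4 * ((A.card : ℝ) * B.card)) =
                (2 ^ (t * (d + 1)) * κ) * ((A.card : ℝ) * B.card) := by ring
              rw [this, h13, one_mul]
          _ ≤ _ := mul_le_mul_of_nonneg_left h (by positivity)
      refine h12.trans ?_
      have e : 4 * (2 : ℝ) ^ (t * (d + 1)) *
          (2 ^ (c * (d + 1)) * ((A'.card : ℝ) * B'.card)) =
          2 ^ ((t + c) * (d + 1) + 2) * ((A'.card : ℝ) * B'.card) := by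
        rw [show (t + c) * (d + 1) + 2 = t * (d + 1) + c * (d + 1) + 2 by ring, pow_add, pow_add]
        ring
      rw [e]
      refine mul_le_mul_of_nonneg_right ?_ (by positivity)
      refine pow_le_pow_right₀ (by norm_num) ?_
      have := Nat.mul_le_mul_right (d + 1) htc
      omega
    exact_mod_cast h8
  by_cases hcase : κ / 4 * ((A.card : ℝ) * B.card) ≤
      ∑ x ∈ A, ∑ y ∈ B, acc p P x y ^ (d + 1) * (if G.Adj x y then 1 else -(2 : ℝ) ^ d)
  · obtain ⟨A', hA', B', hB', h1, h2⟩ := N1_side R2 p P c hp hp1 (fun w => (hbits w).1)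
      (fun x y => G.Adj x y) (fun x y => ¬ G.Adj x y) (fun x y => Iff.rfl) (d + 1) d A B
      (κ / 4) hcase
    exact ⟨A', hA', B', hB', hfin A' B' h1, Or.inl h2⟩
  · obtain ⟨A', hA', B', hB', h1, h2⟩ := N1_side R2 p Q c hp hp1 (fun w => (hbits w).2)
      (fun x y => ¬ G.Adj x y) (fun x y => G.Adj x y) (fun x y => not_not.symm) (d + 1) d A B
      (κ / 4) (by push Not at hcase; linarith)
    exact ⟨A', hA', B', hB', hfin A' B' h1, Or.inr h2⟩

end Pool.Agent.H522R5.CD
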