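import Pool.Agent.H522R5.CD.Defs

namespace Pool.Agent.H522R5.CD

open Finset Pool.Agent.H522R5.CC

theorem N2_card_sum {V : Type} (r : V → V → Prop) (A B : Finset V) [∀ x y, Decidable (r x y)] :
    ((cnt r A B : ℕ) : ℝ) = ∑ x ∈ A, ∑ y ∈ B, (if r x y then (1 : ℝ) else 0) := by
  classical
  unfold cnt
  rw [Finset.card_filter]
  push_cast
  rw [Finset.sum_product]

/-- the tree with complemented output -/
def N2_flip {V : Type} : Prot V → Prot V
  | .leaf b => .leaf (!b)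
  | .alice f l r => .alice f (N2_flip l) (N2_flip r)
  | .bob f l r => .bob f (N2_flip l) (N2_flip r)

theorem N2_flip_run {V : Type} (P : Prot V) (x y : V) :
    (N2_flip P).run x y = !(P.run x y) := by
  induction P with
  | leaf b => rfl
  | alice f l r hl hr =>
    show (if f x = true then (N2_flip r).run x y else (N2_flip l).run x y) =
      !(if f x = true then r.run x y else l.run x y)
    split_ifs <;> assumption
  | bob f l r hl hr =>
    show (if f y = true then (N2_flip r).run x y else (N2_flip l).run x y) =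
      !(if f y = true then r.run x y else l.run x y)
    split_ifs <;> assumption

theorem N2_flip_bits {V : Type} (P : Prot V) : (N2_flip P).bits = P.bits := by
  induction P with
  | leaf b => rfl
  | alice f l r hl hr =>
    show max (N2_flip l).bits (N2_flip r).bits + 1 = max l.bits r.bits + 1
    rw [hl, hr]
  | bob f l r hl hr =>
    show max (N2_flip l).bits (N2_flip r).bits + 1 = max l.bits r.bits + 1
    rw [hl, hr]

theorem N2_flip_acc {V Ω : Type} [Fintype Ω] (p : Ω → ℝ) (hp1 : ∑ w, p w = 1)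
    (P : Ω → Prot V) (x y : V) :
    acc p (fun w => N2_flip (P w)) x y = 1 - acc p P x y := by
  unfold acc
  rw [eq_sub_iff_add_eq, ← Finset.sum_add_distrib]
  refine Eq.trans (Finset.sum_congr rfl fun w _ => ?_) hp1
  rw [N2_flip_run]
  cases (P w).run x y <;> simp

theorem N2_acc0 {V Ω : Type} [Fintype Ω] (p : Ω → ℝ) (hp : ∀ w, 0 ≤ p w)
    (P : Ω → Prot V) (x y : V) : 0 ≤ acc p P x y := by
  unfold acc
  refine Finset.sum_nonneg fun w _ => mul_nonneg (hp w) ?_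
  split_ifs <;> norm_num

theorem N2_num (t d : ℕ) (a : ℝ) (ha : 1 / 2 + (1 / 2 : ℝ) ^ t ≤ a) (ha1 : a ≤ 1) :
    (2 : ℝ) ^ (d + 1) * (1 - a) ^ (2 ^ t * (d + 1)) ≤ a ^ (2 ^ t * (d + 1)) ∧
    (1 / 2 : ℝ) ^ (2 ^ t * (d + 1)) ≤ a ^ (2 ^ t * (d + 1)) := by
  have hep : (0 : ℝ) < (1 / 2 : ℝ) ^ t := by positivity
  have h1a : 0 ≤ 1 - a := by linarith
  have ha0 : 0 ≤ a := by linarith
  constructor
  · have e1 : (1 - a) * (1 + 4 * (1 / 2 : ℝ) ^ t) ≤ a := by
      nlinarith [mul_nonneg h1a hep.le]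
    have e2 : ((1 - a) * (1 + 4 * (1 / 2 : ℝ) ^ t)) ^ (2 ^ t) ≤ a ^ (2 ^ t) :=
      pow_le_pow_left₀ (by positivity) e1 _
    have e3 : 1 + ((2 ^ t : ℕ) : ℝ) * (4 * (1 / 2 : ℝ) ^ t) ≤
        (1 + 4 * (1 / 2 : ℝ) ^ t) ^ (2 ^ t) :=
      one_add_mul_le_pow (by linarith) _
    have e4 : ((2 ^ t : ℕ) : ℝ) * (4 * (1 / 2 : ℝ) ^ t) = 4 := by
      push_cast
      have : (2 : ℝ) ^ t * (1 / 2) ^ t = 1 := by rw [← mul_pow]; norm_num
      linarith
    have e5 : 2 * (1 - a) ^ (2 ^ t) ≤ a ^ (2 ^ t) := by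
      rw [mul_pow] at e2
      have h0 : 0 ≤ (1 - a) ^ (2 ^ t) := by positivity
      nlinarith
    calc (2 : ℝ) ^ (d + 1) * (1 - a) ^ (2 ^ t * (d + 1))
        = (2 * (1 - a) ^ (2 ^ t)) ^ (d + 1) := by rw [mul_pow, pow_mul]
      _ ≤ (a ^ (2 ^ t)) ^ (d + 1) := pow_le_pow_left₀ (by positivity) e5 _
      _ = _ := by rw [pow_mul]
  · exact pow_le_pow_left₀ (by norm_num) (by linarith) _

theorem N2_fin {n : ℕ} (r : Fin n → Fin n → Prop) [∀ x y, Decidable (r x y)]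
    (A B A' B' : Finset (Fin n)) (d T c b : ℕ) (S : ℝ)
    (h0 : (1 / 2 : ℝ) ^ (T + 2) * (A.card * B.card) ≤ S)
    (h1 : S ≤ 2 ^ (c * T) * ∑ x ∈ A', ∑ y ∈ B', (if r x y then (1 : ℝ) else -(2 : ℝ) ^ d))
    (h2 : 0 ≤ ∑ x ∈ A', ∑ y ∈ B', (if r x y then (1 : ℝ) else -(2 : ℝ) ^ d))
    (hb : (c + 1) * T + 2 ≤ b) :
    A.card * B.card ≤ 2 ^ b * (A'.card * B'.card) ∧
      2 ^ d * cnt (fun x y => ¬ r x y) A' B' ≤ A'.card * B'.card := by
  classical
  have hcntA' : ((cnt (fun x y => r x y) A' B' : ℕ) : ℝ) =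
      ∑ x ∈ A', ∑ y ∈ B', (if r x y then (1 : ℝ) else 0) := N2_card_sum _ A' B'
  have hcntN' : ((cnt (fun x y => ¬ r x y) A' B' : ℕ) : ℝ) =
      ∑ x ∈ A', ∑ y ∈ B', (if ¬ r x y then (1 : ℝ) else 0) := N2_card_sum _ A' B'
  have hs : ∑ x ∈ A', ∑ y ∈ B', (if r x y then (1 : ℝ) else -(2 : ℝ) ^ d) =
      (cnt (fun x y => r x y) A' B' : ℕ) -
        2 ^ d * ((cnt (fun x y => ¬ r x y) A' B' : ℕ) : ℝ) := by
    rw [hcntA', hcntN', Finset.mul_sum, ← Finset.sum_sub_distrib]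
    refine Finset.sum_congr rfl fun x _ => ?_
    rw [Finset.mul_sum, ← Finset.sum_sub_distrib]
    refine Finset.sum_congr rfl fun y _ => ?_
    by_cases h : r x y <;> simp [h]
  have hle : ((cnt (fun x y => r x y) A' B' : ℕ) : ℝ) ≤ A'.card * B'.card := by
    have : cnt (fun x y => r x y) A' B' ≤ A'.card * B'.card := by
      unfold cnt
      rw [← Finset.card_product]
      exact Finset.card_le_card (by intro z hz; simp only [Finset.mem_filter] at hz; exact hz.1)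
    exact_mod_cast this
  rw [hs] at h1 h2
  constructor
  · have h8 : ((A.card * B.card : ℕ) : ℝ) ≤ ((2 ^ b * (A'.card * B'.card) : ℕ) : ℝ) := by
      push_cast
      have h9 : (1 / 2 : ℝ) ^ (T + 2) * ((A.card : ℝ) * B.card) ≤
          2 ^ (c * T) * ((A'.card : ℝ) * B'.card) := by
        refine h0.trans (h1.trans ?_)
        refine mul_le_mul_of_nonneg_left ?_ (by positivity)
        have : (0 : ℝ) ≤ 2 ^ d * ((cnt (fun x y => ¬ r x y) A' B' : ℕ) : ℝ) := by positivity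
        linarith
      have h13 : (2 : ℝ) ^ (T + 2) * (1 / 2) ^ (T + 2) = 1 := by
        rw [← mul_pow]; norm_num
      calc (A.card : ℝ) * B.card = 2 ^ (T + 2) *
            ((1 / 2 : ℝ) ^ (T + 2) * ((A.card : ℝ) * B.card)) := by
            rw [← mul_assoc, h13, one_mul]
        _ ≤ 2 ^ (T + 2) * (2 ^ (c * T) * ((A'.card : ℝ) * B'.card)) :=
            mul_le_mul_of_nonneg_left h9 (by positivity)
        _ = 2 ^ ((c + 1) * T + 2) * ((A'.card : ℝ) * B'.card) := by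
            rw [show (c + 1) * T + 2 = (T + 2) + c * T by ring, pow_add 2 (T + 2)]
            ring
        _ ≤ 2 ^ b * ((A'.card : ℝ) * B'.card) := by
            refine mul_le_mul_of_nonneg_right ?_ (by positivity)
            exact pow_le_pow_right₀ (by norm_num) hb
    exact_mod_cast h8
  · have h8 : (2 : ℝ) ^ d * ((cnt (fun x y => ¬ r x y) A' B' : ℕ) : ℝ) ≤
        A'.card * B'.card := by linarith
    exact_mod_cast h8

/-- N2 -/
theorem N2 (R2 : S_R2) : S_N2 := by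
  classical
  intro n G b d hG A B hAB hA hB
  obtain ⟨t, c, Ω, _, p, P, htc, hp, hp1, hbits, hacc⟩ := hG
  set T := 2 ^ t * (d + 1) with hT
  have hD : (c + 1) * T + 2 ≤ 2 ^ b * (d + 1) + 2 := by
    have h1 : c + 1 ≤ 2 ^ c := Nat.lt_two_pow_self
    have h2 : (c + 1) * 2 ^ t ≤ 2 ^ b := by
      calc (c + 1) * 2 ^ t ≤ 2 ^ c * 2 ^ t := Nat.mul_le_mul_right _ h1
        _ = 2 ^ (t + c) := by rw [pow_add, mul_comm]
        _ ≤ 2 ^ b := Nat.pow_le_pow_right (by norm_num) htc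
    have h3 := Nat.mul_le_mul_right (d + 1) h2
    rw [hT, ← mul_assoc]
    omega
  have h01 : ∀ x y, acc p P x y ≤ 1 := by
    intro x y
    have := N2_acc0 p hp (fun w => N2_flip (P w)) x y
    rw [N2_flip_acc p hp1] at this
    linarith
  have hpt : ∀ x ∈ A, ∀ y ∈ B, (1 / 2 : ℝ) ^ (T + 1) ≤
      acc p P x y ^ T * (if G.Adj x y then 1 else -(2 : ℝ) ^ d) +
      acc p (fun w => N2_flip (P w)) x y ^ T * (if ¬ G.Adj x y then 1 else -(2 : ℝ) ^ d) := by
    intro x hx y hy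
    have hxy := hAB x hx y hy
    obtain ⟨hy1, hy2⟩ := hacc x y hxy
    rw [N2_flip_acc p hp1]
    by_cases h : G.Adj x y
    · obtain ⟨n1, n2⟩ := N2_num t d (acc p P x y) (hy1 h) (h01 x y)
      rw [if_pos h, if_neg (not_not.2 h)]
      rw [← hT] at n1 n2
      rw [pow_succ] at n1 ⊢
      nlinarith
    · have hh : 1 / 2 + (1 / 2 : ℝ) ^ t ≤ 1 - acc p P x y := by linarith [hy2 h]
      obtain ⟨n1, n2⟩ := N2_num t d (1 - acc p P x y) hh
        (by linarith [N2_acc0 p hp P x y])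
      rw [sub_sub_cancel] at n1
      rw [if_neg h, if_pos h]
      rw [← hT] at n1 n2
      rw [pow_succ] at n1 ⊢
      nlinarith
  have hsum : (1 / 2 : ℝ) ^ (T + 1) * (A.card * B.card) ≤
      (∑ x ∈ A, ∑ y ∈ B, acc p P x y ^ T * (if G.Adj x y then 1 else -(2 : ℝ) ^ d)) +
      ∑ x ∈ A, ∑ y ∈ B, acc p (fun w => N2_flip (P w)) x y ^ T *
        (if ¬ G.Adj x y then 1 else -(2 : ℝ) ^ d) := by
    have e : (1 / 2 : ℝ) ^ (T + 1) * (A.card * B.card) =
        ∑ x ∈ A, ∑ y ∈ B, (1 / 2 : ℝ) ^ (T + 1) := by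
      simp only [Finset.sum_const, nsmul_eq_mul]
      ring
    rw [e, ← Finset.sum_add_distrib]
    refine Finset.sum_le_sum fun x hx => ?_
    rw [← Finset.sum_add_distrib]
    exact Finset.sum_le_sum fun y hy => hpt x hx y hy
  have hhalf : (1 / 2 : ℝ) ^ (T + 1) * (A.card * B.card) =
      2 * ((1 / 2 : ℝ) ^ (T + 2) * (A.card * B.card)) := by
    rw [show T + 2 = (T + 1) + 1 from rfl, pow_succ (1 / 2 : ℝ) (T + 1)]
    ring
  rw [hhalf] at hsum
  rcases le_total ((1 / 2 : ℝ) ^ (T + 2) * (A.card * B.card))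
    (∑ x ∈ A, ∑ y ∈ B, acc p P x y ^ T * (if G.Adj x y then 1 else -(2 : ℝ) ^ d)) with hc | hc
  · obtain ⟨A', hA', B', hB', h1, h2⟩ := R2 (Fin n) Ω p P c hp hp1 hbits T
      (fun x y => if G.Adj x y then 1 else -(2 : ℝ) ^ d) A B
    obtain ⟨f1, f2⟩ := N2_fin (fun x y => G.Adj x y) A B A' B' d T c _ _ hc h1 h2 hD
    exact ⟨A', hA', B', hB', f1, Or.inl f2⟩
  · have hc2 : (1 / 2 : ℝ) ^ (T + 2) * (A.card * B.card) ≤
        ∑ x ∈ A, ∑ y ∈ B, acc p (fun w => N2_flip (P w)) x y ^ T *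
        (if ¬ G.Adj x y then 1 else -(2 : ℝ) ^ d) := by linarith
    obtain ⟨A', hA', B', hB', h1, h2⟩ := R2 (Fin n) Ω p (fun w => N2_flip (P w)) c hp hp1
      (fun w => by rw [N2_flip_bits]; exact hbits w) T
      (fun x y => if ¬ G.Adj x y then 1 else -(2 : ℝ) ^ d) A B
    obtain ⟨f1, f2⟩ := N2_fin (fun x y => ¬ G.Adj x y) A B A' B' d T c _ _ hc2 h1 h2 hD
    simp only [not_not] at f2
    exact ⟨A', hA', B', hB', f1, Or.inr f2⟩

end Pool.Agent.H522R5.CD
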