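import Pool.Agent.H522R5.CD.Defs
import Pool.Agent.H522R5.CC.U1

/-!
W1: every graph on at most `2^m` vertices has PostBPP cost at most `m + 1`.
-/

namespace Pool.Agent.H522R5.CD

open Finset Pool.Agent.H522R5.CC

/-- the protocol with the opposite output -/
def W1_flip {V : Type} : Prot V → Prot V
  | Prot.leaf b => Prot.leaf (!b)
  | Prot.alice f l r => Prot.alice f (W1_flip l) (W1_flip r)
  | Prot.bob f l r => Prot.bob f (W1_flip l) (W1_flip r)

theorem W1_bits {V : Type} (P : Prot V) : (W1_flip P).bits = P.bits := by
  induction P with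
  | leaf b => rfl
  | alice f l r ihl ihr => simp [W1_flip, Prot.bits, ihl, ihr]
  | bob f l r ihl ihr => simp [W1_flip, Prot.bits, ihl, ihr]

theorem W1_run {V : Type} (P : Prot V) (x y : V) : (W1_flip P).run x y = !(P.run x y) := by
  induction P with
  | leaf b => rfl
  | alice f l r ihl ihr =>
    by_cases h : f x = true
    · simp [W1_flip, Prot.run, h, ihr]
    · simp [W1_flip, Prot.run, h, ihl]
  | bob f l r ihl ihr =>
    by_cases h : f y = true
    · simp [W1_flip, Prot.run, h, ihr]
    · simp [W1_flip, Prot.run, h, ihl]

open U1Aux in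
theorem W1 : S_W1 := by
  intro n m G hn
  refine ⟨0, m + 1, Unit, inferInstance, fun _ => 1, fun _ => build G m 0,
    fun _ => W1_flip (build G m 0), by omega, ?_, ?_, ?_, ?_⟩
  · intro _; norm_num
  · simp
  · intro _
    exact ⟨(build_bits G m 0).le, by rw [W1_bits]; exact (build_bits G m 0).le⟩
  · intro x y _
    have hx : x.val = 0 + x.val % 2 ^ m := by
      rw [Nat.mod_eq_of_lt (lt_of_lt_of_le x.isLt hn), zero_add]
    have hr := build_run G x y m 0 hx
    constructor
    · intro hA
      have h1 : (build G m 0).run x y = true := hr.2 hA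
      have h2 : ¬ (W1_flip (build G m 0)).run x y = true := by
        rw [W1_run, h1]; simp
      constructor
      · simp [acc, h1]
      · simp [acc, h1, h2]
    · intro hA
      have h1 : ¬ (build G m 0).run x y = true := fun h => hA (hr.1 h)
      have h2 : (W1_flip (build G m 0)).run x y = true := by
        rw [W1_run]; simpa using h1
      constructor
      · simp [acc, h2]
      · simp [acc, h1, h2]

end Pool.Agent.H522R5.CD
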