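import Pool.Agent.H522R5.CD.Defs

/-!
Nondeterministic protocols (covers by `2^b` rectangles) have `PostBPP` cost at most `b + 3`.
-/

set_option autoImplicit false

namespace Pool.Agent.H522R5.CD

open Finset Pool.Agent.H522R5.CC

theorem W2 : S_W2 := by
  classical
  intro n b G A B h1 h2
  have hpos : 0 < 2 ^ b := by positivity
  set R : Fin (2 ^ b) → Prot (Fin n) := fun i =>
    Prot.alice (fun x => decide (x ∈ A i)) (Prot.leaf false)
      (Prot.bob (fun y => decide (y ∈ B i)) (Prot.leaf false) (Prot.leaf true)) with hR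
  set i0 : Fin (2 ^ b) := ⟨0, hpos⟩ with hi0
  refine ⟨b + 1, 2, Fin (2 ^ b) × Bool, inferInstance, fun _ => (1 / 2 : ℝ) ^ (b + 1),
    fun w => R w.1, fun w => Prot.leaf (decide (w = (i0, true))), by omega,
    fun _ => by positivity, ?_, fun w => ⟨le_of_eq rfl, by simp [Prot.bits]⟩, ?_⟩
  · rw [Finset.sum_const, Finset.card_univ, Fintype.card_prod, Fintype.card_fin,
      Fintype.card_bool, nsmul_eq_mul]
    push_cast
    rw [← pow_succ, ← mul_pow]
    norm_num
  · have hrun : ∀ (i : Fin (2 ^ b)) (x y : Fin n), (R i).run x y = true ↔ (x ∈ A i ∧ y ∈ B i) := by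
      intro i x y
      simp only [hR, Prot.run, decide_eq_true_eq]
      by_cases hx : x ∈ A i
      · by_cases hy : y ∈ B i
        · simp [hx, hy]
        · simp [hx, hy]
      · simp [hx]
    have hQ : ∀ x y : Fin n, acc (fun _ => (1 / 2 : ℝ) ^ (b + 1))
        (fun w : Fin (2 ^ b) × Bool => (Prot.leaf (decide (w = (i0, true))) : Prot (Fin n))) x y
          = (1 / 2 : ℝ) ^ (b + 1) := by
      intro x y
      unfold acc
      rw [Finset.sum_eq_single (i0, true)]
      · simp [Prot.run]
      · intro w _ hw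
        simp [Prot.run, hw]
      · intro h
        exact absurd (Finset.mem_univ _) h
    have hP : ∀ x y : Fin n, acc (fun _ => (1 / 2 : ℝ) ^ (b + 1))
        (fun w : Fin (2 ^ b) × Bool => R w.1) x y
          = ∑ i, (1 / 2 : ℝ) ^ b * (if (R i).run x y = true then 1 else 0) := by
      intro x y
      unfold acc
      rw [Fintype.sum_prod_type]
      refine Finset.sum_congr rfl fun i _ => ?_
      rw [Fintype.sum_bool]
      ring
    intro x y hxy
    rw [hQ, hP]
    refine ⟨fun hadj => ?_, fun hadj => ?_⟩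
    · obtain ⟨i, hi⟩ := h2 x y hxy hadj
      have h3 : (1 / 2 : ℝ) ^ b = (1 / 2 : ℝ) ^ b *
          (if (R i).run x y = true then 1 else 0) := by
        rw [if_pos ((hrun i x y).2 hi), mul_one]
      have h4 : (1 / 2 : ℝ) ^ b ≤
          ∑ i, (1 / 2 : ℝ) ^ b * (if (R i).run x y = true then 1 else 0) := by
        refine h3.le.trans ?_
        refine Finset.single_le_sum (f := fun i => (1 / 2 : ℝ) ^ b *
          (if (R i).run x y = true then 1 else 0)) ?_ (Finset.mem_univ i)
        intro j _
        refine mul_nonneg (by positivity) ?_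
        split_ifs <;> norm_num
      have h5 : 2 * (1 / 2 : ℝ) ^ (b + 1) = (1 / 2 : ℝ) ^ b := by ring
      have h6 : (0 : ℝ) < (1 / 2) ^ (b + 1) := by positivity
      constructor
      · linarith
      · linarith
    · have h3 : ∀ i : Fin (2 ^ b), (1 / 2 : ℝ) ^ b *
          (if (R i).run x y = true then 1 else 0) = 0 := by
        intro i
        rw [if_neg, mul_zero]
        rw [hrun]
        rintro ⟨hx, hy⟩
        exact hadj (h1 i x hx y hy hxy)
      rw [Finset.sum_eq_zero (fun i _ => h3 i)]
      have h6 : (0 : ℝ) < (1 / 2) ^ (b + 1) := by positivity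
      exact ⟨le_rfl, by linarith⟩

end Pool.Agent.H522R5.CD
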