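import Pool.Agent.H522R5.CD.Defs

/-! W3: bounded error randomised protocols. -/

namespace Pool.Agent.H522R5.CD

open Finset Pool.Agent.H522R5.CC

/-- the protocol with the opposite output -/
def W3_flip {V : Type} : Prot V → Prot V
  | Prot.leaf b => Prot.leaf (!b)
  | Prot.alice f l r => Prot.alice f (W3_flip l) (W3_flip r)
  | Prot.bob f l r => Prot.bob f (W3_flip l) (W3_flip r)

theorem W3_bits {V : Type} (P : Prot V) : (W3_flip P).bits = P.bits := by
  induction P with
  | leaf b => rfl
  | alice f l r h1 h2 => simp only [W3_flip, Prot.bits, h1, h2]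
  | bob f l r h1 h2 => simp only [W3_flip, Prot.bits, h1, h2]

theorem W3_run {V : Type} (P : Prot V) (x y : V) : (W3_flip P).run x y = !(P.run x y) := by
  induction P with
  | leaf b => rfl
  | alice f l r h1 h2 =>
    simp only [W3_flip, Prot.run]
    split_ifs
    · exact h2
    · exact h1
  | bob f l r h1 h2 =>
    simp only [W3_flip, Prot.run]
    split_ifs
    · exact h2
    · exact h1

theorem W3_acc {V Ω : Type} [Fintype Ω] (p : Ω → ℝ) (P : Ω → Prot V) (hp : ∑ w, p w = 1)
    (x y : V) : acc p (fun w => W3_flip (P w)) x y = 1 - acc p P x y := by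
  unfold acc
  rw [eq_sub_iff_add_eq, ← Finset.sum_add_distrib]
  refine Eq.trans (Finset.sum_congr rfl fun w _ => ?_) hp
  rw [W3_run]
  cases (P w).run x y <;> simp

theorem W3 : S_W3 := by
  intro n c G Ω _ p P hp0 hp1 hb hG
  refine ⟨1, c, Ω, inferInstance, p, P, fun w => W3_flip (P w), by omega, hp0, hp1, ?_, ?_⟩
  · intro w
    refine ⟨hb w, ?_⟩
    show (W3_flip (P w)).bits ≤ c
    rw [W3_bits]
    exact hb w
  · intro x y hxy
    have h1 := hG x y hxy
    rw [W3_acc p P hp1]
    constructor
    · intro h
      have h2 := h1.1 h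
      constructor
      · rw [pow_one]; linarith
      · linarith
    · intro h
      have h2 := h1.2 h
      constructor
      · rw [pow_one]; linarith
      · linarith

end Pool.Agent.H522R5.CD
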