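import Pool.Agent.H522R5.CD.Defs

/-!
# W4: small-bounded-error protocols are postselected bounded-error protocols
-/

namespace Pool.Agent.H522R5.CD

open Finset Pool.Agent.H522R5.CC

/-- conjunction of two protocols: every accepting leaf of the first is replaced by the second -/
def W4_and {V : Type} : Prot V → Prot V → Prot V
  | Prot.leaf b, R => if b = true then R else Prot.leaf false
  | Prot.alice f l r, R => Prot.alice f (W4_and l R) (W4_and r R)
  | Prot.bob f l r, R => Prot.bob f (W4_and l R) (W4_and r R)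

theorem W4_run {V : Type} (P R : Prot V) (x y : V) :
    (W4_and P R).run x y = (P.run x y && R.run x y) := by
  induction P with
  | leaf b => cases b <;> simp [W4_and, Prot.run]
  | alice f l r ihl ihr =>
      simp only [W4_and, Prot.run]
      split_ifs
      · exact ihr
      · exact ihl
  | bob f l r ihl ihr =>
      simp only [W4_and, Prot.run]
      split_ifs
      · exact ihr
      · exact ihl

theorem W4_bits {V : Type} (P R : Prot V) : (W4_and P R).bits ≤ P.bits + R.bits := by
  induction P with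
  | leaf b => cases b <;> simp [W4_and, Prot.bits]
  | alice f l r ihl ihr =>
      simp only [W4_and, Prot.bits]
      omega
  | bob f l r ihl ihr =>
      simp only [W4_and, Prot.bits]
      omega

theorem W4_acc_nonneg {V Ω : Type} [Fintype Ω] (p : Ω → ℝ) (P : Ω → Prot V) (x y : V)
    (hp : ∀ w, 0 ≤ p w) : 0 ≤ acc p P x y := by
  unfold acc
  refine Finset.sum_nonneg fun w _ => mul_nonneg (hp w) ?_
  split_ifs <;> norm_num

theorem W4_acc_le {V Ω : Type} [Fintype Ω] (p : Ω → ℝ) (P : Ω → Prot V) (x y : V)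
    (hp : ∀ w, 0 ≤ p w) (h1 : ∑ w, p w = 1) : acc p P x y ≤ 1 := by
  unfold acc
  refine le_trans (Finset.sum_le_sum (g := p) fun w _ => ?_) h1.le
  have := hp w
  split_ifs
  · simp
  · simpa using this

theorem W4_acc_and {V Ω : Type} [Fintype Ω] (p : Ω → ℝ) (P : Ω → Prot V) (q : ℝ) (x y : V) :
    acc (fun w : Ω × Ω × Bool => p w.1 * p w.2.1 * (if w.2.2 = true then q else 1 - q))
      (fun w => W4_and (P w.1) (P w.2.1)) x y = acc p P x y ^ 2 := by
  unfold acc
  rw [sq, Finset.sum_mul_sum, Fintype.sum_prod_type]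
  refine Finset.sum_congr rfl fun w1 _ => ?_
  rw [Fintype.sum_prod_type]
  refine Finset.sum_congr rfl fun w2 _ => ?_
  simp only [Fintype.sum_bool, W4_run, Bool.and_eq_true, if_true, Bool.false_eq_true, if_false]
  by_cases h1 : (P w1).run x y = true <;> by_cases h2 : (P w2).run x y = true <;>
    simp [h1, h2]
  ring

theorem W4_acc_bit {V Ω : Type} [Fintype Ω] (p : Ω → ℝ) (q : ℝ) (x y : V) (h1 : ∑ w, p w = 1) :
    acc (fun w : Ω × Ω × Bool => p w.1 * p w.2.1 * (if w.2.2 = true then q else 1 - q))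
      (fun w => (Prot.leaf w.2.2 : Prot V)) x y = q := by
  unfold acc
  have e : ∀ w1 w2 : Ω, ∑ b : Bool, (p w1 * p w2 * (if b = true then q else 1 - q)) *
      (if (Prot.leaf b : Prot V).run x y = true then (1 : ℝ) else 0) = p w1 * p w2 * q := by
    intro w1 w2
    simp [Prot.run]
  rw [Fintype.sum_prod_type]
  have e2 : ∀ w1 : Ω, ∑ z : Ω × Bool, (p w1 * p z.1 * (if z.2 = true then q else 1 - q)) *
      (if (Prot.leaf z.2 : Prot V).run x y = true then (1 : ℝ) else 0) = p w1 * q := by
    intro w1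
    rw [Fintype.sum_prod_type]
    rw [Finset.sum_congr rfl fun w2 _ => e w1 w2]
    rw [← Finset.sum_mul, ← Finset.mul_sum, h1, mul_one]
  rw [Finset.sum_congr rfl fun w1 _ => e2 w1, ← Finset.sum_mul, h1, one_mul]

theorem W4 : S_W4 := by
  intro n b G hG
  obtain ⟨t0, c, Ω, hΩ, p, P, a, htc, hp, hp1, hbits, hta, hacc⟩ := hG
  by_cases hE : ∃ x y : Fin n, x < y ∧ G.Adj x y
  · obtain ⟨x0, y0, hxy0, hadj0⟩ := hE
    have ha0 : 0 < a := lt_of_lt_of_le (by positivity) hta
    have ha1 : a ≤ 1 := ((hacc x0 y0 hxy0).1 hadj0).trans (W4_acc_le p P x0 y0 hp hp1)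
    have hq0 : 0 ≤ a ^ 2 / 2 := by positivity
    have hq1 : 0 ≤ 1 - a ^ 2 / 2 := by nlinarith
    have hpow : (1 / 2 : ℝ) ^ (2 * t0) ≤ a ^ 2 := by
      rw [mul_comm, pow_mul]
      exact pow_le_pow_left₀ (by positivity) hta 2
    have hpow1 : (1 / 2 : ℝ) ^ (2 * t0 + 1) ≤ a ^ 2 / 2 := by
      rw [pow_succ]
      linarith
    have hpow2 : (0 : ℝ) ≤ (1 / 2 : ℝ) ^ (2 * t0) := by positivity
    refine ⟨2 * t0 + 1, 2 * c, Ω × Ω × Bool, inferInstance,
      fun w => p w.1 * p w.2.1 * (if w.2.2 = true then a ^ 2 / 2 else 1 - a ^ 2 / 2),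
      fun w => W4_and (P w.1) (P w.2.1), fun w => Prot.leaf w.2.2, by omega, ?_, ?_, ?_, ?_⟩
    · intro w
      refine mul_nonneg (mul_nonneg (hp _) (hp _)) ?_
      split_ifs
      · exact hq0
      · exact hq1
    · rw [Fintype.sum_prod_type]
      have e2 : ∀ w1 : Ω, ∑ z : Ω × Bool,
          (p w1 * p z.1 * (if z.2 = true then a ^ 2 / 2 else 1 - a ^ 2 / 2)) = p w1 := by
        intro w1
        rw [Fintype.sum_prod_type]
        have e : ∀ w2 : Ω, ∑ b : Bool,
            (p w1 * p w2 * (if b = true then a ^ 2 / 2 else 1 - a ^ 2 / 2)) = p w1 * p w2 := by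
          intro w2
          simp only [Fintype.sum_bool, if_true, Bool.false_eq_true, if_false]
          ring
        rw [Finset.sum_congr rfl fun w2 _ => e w2, ← Finset.mul_sum, hp1, mul_one]
      rw [Finset.sum_congr rfl fun w1 _ => e2 w1, hp1]
    · intro w
      constructor
      · have h1 := W4_bits (P w.1) (P w.2.1)
        have h2 := hbits w.1
        have h3 := hbits w.2.1
        show (W4_and (P w.1) (P w.2.1)).bits ≤ 2 * c
        omega
      · simp [Prot.bits]
    · intro x y hxy
      have hn := W4_acc_nonneg p P x y hp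
      obtain ⟨h1, h2⟩ := hacc x y hxy
      rw [W4_acc_and, W4_acc_bit p _ x y hp1]
      constructor
      · intro hA
        have h3 := h1 hA
        have h4 : a ^ 2 ≤ acc p P x y ^ 2 := pow_le_pow_left₀ ha0.le h3 2
        constructor
        · linarith
        · linarith
      · intro hA
        have h3 := h2 hA
        have h4 : acc p P x y ^ 2 ≤ (a / 2) ^ 2 := pow_le_pow_left₀ hn h3 2
        constructor
        · exact hpow1
        · nlinarith
  · push Not at hE
    refine ⟨0, 0, Unit, inferInstance, fun _ => 1, fun _ => Prot.leaf false,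
      fun _ => Prot.leaf true, by omega, fun _ => zero_le_one, by simp, fun _ => ?_, ?_⟩
    · simp [Prot.bits]
    · intro x y hxy
      refine ⟨fun h => absurd h (hE x y hxy), fun _ => ?_⟩
      simp [acc, Prot.run]

end Pool.Agent.H522R5.CD
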