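import Pool.Agent.H522R5.CD.Defs

namespace Pool.Agent.H522R5.CD

open Finset Pool.Agent.H522R5.CC

theorem W5 : S_W5 := by
  rintro n b G ⟨t, c, Ω, i, p, P, Q, h1, h2, h3, h4, h5⟩
  refine ⟨t, c, Ω, i, p, Q, P, h1, h2, h3, fun w => ⟨(h4 w).2, (h4 w).1⟩, fun x y hxy => ?_⟩
  refine ⟨fun h => (h5 x y hxy).2 ?_, fun h => (h5 x y hxy).1 ?_⟩
  · exact ((SimpleGraph.compl_adj G x y).1 h).2
  · by_contra hG
    exact h ((SimpleGraph.compl_adj G x y).2 ⟨ne_of_lt hxy, hG⟩)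

end Pool.Agent.H522R5.CD
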