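import Pool.Agent.H522R5.CD.Defs

/-! Task Z: assembly of the construction. -/

namespace Pool.Agent.H522R5.CD

open Finset Pool.Agent.H522R5.CC

theorem Z_odd {t : ℕ} (ht : Odd t) (b : Fin t → Bool) : (∑ j, sg (b j)) ≠ 0 := by
  intro h
  have h1 : ((∑ j, sg (b j) : ℤ) : ZMod 2) = 0 := by rw [h]; simp
  rw [Int.cast_sum] at h1
  have h2 : ∀ j, ((sg (b j) : ℤ) : ZMod 2) = 1 := by
    intro j
    unfold sg
    split_ifs
    · simp
    · have : ((-1 : ℤ) : ZMod 2) = 1 := by decide
      exact this
  rw [Finset.sum_congr rfl (fun j _ => h2 j)] at h1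
  simp only [sum_const, card_univ, Fintype.card_fin, nsmul_eq_mul, mul_one] at h1
  rw [ZMod.natCast_eq_zero_iff] at h1
  obtain ⟨m, rfl⟩ := ht
  omega

theorem Z (Z2 : S_Z2) (Z3 : S_Z3) (Z4 : S_Z4) (Z5 : S_Z5) (Z6 : S_Z6) : S_Z := by
  classical
  intro h hh
  obtain ⟨hnum, hpow⟩ := Z6 h hh
  set N : ℕ := 2 ^ (h / 16) with hN
  set t : ℕ := 16 * h ^ 4 + 1 with ht
  have htodd : Odd t := ⟨8 * h ^ 4, by rw [ht]; ring⟩
  obtain ⟨p, hp, htp, hp2⟩ := Nat.exists_prime_lt_and_le_two_mul t (by omega)
  haveI : Fact p.Prime := ⟨hp⟩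
  have hcard : Fintype.card (Fin N) ≤ Fintype.card (Fin h → ZMod p) := by
    rw [Fintype.card_fin, Fintype.card_fun, ZMod.card, Fintype.card_fin]
    calc N = 2 ^ (h / 16) := hN
      _ ≤ 2 ^ h := Nat.pow_le_pow_right (by norm_num) (Nat.div_le_self _ _)
      _ ≤ p ^ h := Nat.pow_le_pow_left hp.two_le _
  obtain ⟨ι⟩ := Function.Embedding.nonempty_of_card_le hcard
  obtain ⟨f0, hf0⟩ := Z2 p h t hp (by omega) htp.le
  set f : Fin N → Fin t → Fin p := fun x => f0 (ι x) with hf
  have hfa : ∀ y y' : Fin N, y ≠ y' →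
      ((Finset.univ : Finset (Fin t)).filter fun j => f y j = f y' j).card < h :=
    fun y y' hne => hf0 (ι y) (ι y') (fun h => hne (ι.injective h))
  let sgn : Bool → ℤ := fun s => if s = true then 1 else -1
  have hsgn : ∀ s, sgn s = 1 ∨ sgn s = -1 := by
    intro s
    cases s
    · right; rfl
    · left; rfl
  let T : (Fin h → Fin N) × Bool → Finset (Fin t → Fin p → Bool) := fun i =>
    if Function.Injective i.1 then
      (Finset.univ : Finset (Fin t → Fin p → Bool)).filter fun a =>
        ∀ y, 0 < sgn i.2 * ∑ j, sg (a j (f (i.1 y) j))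
    else ∅
  have hcA : (Fintype.card (Fin t → Fin p → Bool) : ℝ) = 2 ^ (t * p) := by
    rw [Fintype.card_fun, Fintype.card_fun, Fintype.card_fin, Fintype.card_fin, Fintype.card_bool,
      ← pow_mul]
    push_cast
    rw [mul_comm p t]
  have hT : ∀ i, ((T i).card : ℝ) ≤ (29 / 32 : ℝ) ^ h *
      Fintype.card (Fin t → Fin p → Bool) := by
    intro i
    by_cases hi : Function.Injective i.1
    · have h3 := Z3 t p h h (fun y => f (i.1 y)) (sgn i.2) (hsgn i.2)
        (fun y y' hne => (hfa _ _ (fun hc => hne (hi hc))).le)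
        (by rw [ht]; apply le_of_eq; ring)
      have hTi : T i = (Finset.univ : Finset (Fin t → Fin p → Bool)).filter fun a =>
          ∀ y, 0 < sgn i.2 * ∑ j, sg (a j (f (i.1 y) j)) := if_pos hi
      rw [hTi, hcA]
      have h4 : (32 : ℝ) ^ h * (((Finset.univ : Finset (Fin t → Fin p → Bool)).filter fun a =>
          ∀ y, 0 < sgn i.2 * ∑ j, sg (a j (f (i.1 y) j))).card : ℝ) ≤
          29 ^ h * 2 ^ (t * p) := by exact_mod_cast h3
      rw [div_pow, div_mul_eq_mul_div, le_div_iff₀ (by positivity), mul_comm _ ((32 : ℝ) ^ h)]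
      exact h4
    · have hTi : T i = ∅ := if_neg hi
      rw [hTi]
      simp only [Finset.card_empty, Nat.cast_zero]
      positivity
  obtain ⟨a, ha⟩ := Z4 (Fin t → Fin p → Bool) ((Fin h → Fin N) × Bool) T N h
    ((29 / 32 : ℝ) ^ h) (by positivity) hT (by
      have hcI : (Fintype.card ((Fin h → Fin N) × Bool) : ℝ) = ((2 : ℝ) ^ (h / 16)) ^ h * 2 := by
        rw [Fintype.card_prod, Fintype.card_fun, Fintype.card_fin, Fintype.card_fin,
          Fintype.card_bool, hN]
        push_cast
        ring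
      have hNr : (N : ℝ) = (2 : ℝ) ^ (h / 16) := by rw [hN]; push_cast; ring
      rw [hcI, hNr]
      calc _ = 2 * ((2 : ℝ) ^ (h / 16)) ^ h * ((2 : ℝ) ^ (h / 16)) ^ h *
            ((29 / 32 : ℝ) ^ h) ^ h := by ring
        _ < 1 := hnum)
  -- the graph
  let W : Fin N → Fin N → ℤ := fun x y => ∑ j, sg (a x j (f y j))
  let G : SimpleGraph (Fin N) :=
    { Adj := fun x y => x ≠ y ∧ 0 < W (min x y) (max x y)
      symm := ⟨fun x y hxy => ⟨hxy.1.symm, by rw [min_comm, max_comm]; exact hxy.2⟩⟩
      loopless := ⟨fun x hx => hx.1 rfl⟩ }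
  have hG : ∀ x y, x < y → (G.Adj x y ↔ 0 < ∑ j, sg (a x j (f y j))) := by
    intro x y hxy
    show (x ≠ y ∧ 0 < W (min x y) (max x y)) ↔ 0 < W x y
    rw [min_eq_left hxy.le, max_eq_right hxy.le]
    exact ⟨fun h => h.2, fun h => ⟨hxy.ne, h⟩⟩
  refine ⟨G, ?_, ?_⟩
  · have h5 := Z5 N t p (4 * Nat.log 2 h + 9) (4 * Nat.log 2 h + 9) a f G htodd
      (hp2.trans hpow) hpow hG
    have e1 : 4 * Nat.log 2 h + 9 + (4 * Nat.log 2 h + 9) + 1 = 8 * Nat.log 2 h + 19 := by ring
    rw [e1] at h5
    exact h5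
  · intro S
    -- common part
    have key : ∀ (s : Bool) (hS : S.card = 2 * h), (∀ x ∈ S, ∀ y ∈ S, x < y →
        0 < sgn s * W x y) → False := by
      intro s hS hW
      set e := S.orderEmbOfFin hS with he
      have heS : ∀ i, e i ∈ S := fun i => Finset.orderEmbOfFin_mem S hS i
      let X : Fin h → Fin N := fun i => e ⟨i.1, by omega⟩
      let Y : Fin h → Fin N := fun i => e ⟨h + i.1, by omega⟩
      have hX : Function.Injective X := by
        intro i j hij
        have := e.injective hij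
        simp only [Fin.mk.injEq] at this
        exact Fin.ext this
      have hY : Function.Injective Y := by
        intro i j hij
        have := e.injective hij
        simp only [Fin.mk.injEq] at this
        exact Fin.ext (by omega)
      have hXY : ∀ i j, X i < Y j := by
        intro i j
        apply e.strictMono
        show (i : ℕ) < h + j
        omega
      have h6 := ha (Y, s)
      have h7 : (Finset.univ : Finset (Fin h)).image X ⊆
          (Finset.univ : Finset (Fin N)).filter fun x => a x ∈ T (Y, s) := by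
        intro x hx
        obtain ⟨i, _, rfl⟩ := Finset.mem_image.mp hx
        refine Finset.mem_filter.mpr ⟨Finset.mem_univ _, ?_⟩
        have hTi : T (Y, s) = (Finset.univ : Finset (Fin t → Fin p → Bool)).filter fun a =>
          ∀ y, 0 < sgn s * ∑ j, sg (a j (f (Y y) j)) := if_pos hY
        rw [hTi]
        refine Finset.mem_filter.mpr ⟨Finset.mem_univ _, fun y => ?_⟩
        exact hW (X i) (heS _) (Y y) (heS _) (hXY i y)
      have h8 := Finset.card_le_card h7
      rw [Finset.card_image_of_injective _ hX, Finset.card_univ, Fintype.card_fin] at h8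
      omega
    constructor
    · intro hc
      refine key true hc.card_eq (fun x hx y hy hxy => ?_)
      have h9 := hc.isClique (Finset.mem_coe.mpr hx) (Finset.mem_coe.mpr hy) hxy.ne
      have h10 := (hG x y hxy).mp h9
      show 0 < (1 : ℤ) * W x y
      rw [one_mul]
      exact h10
    · intro hc
      refine key false hc.card_eq (fun x hx y hy hxy => ?_)
      have h9 : ¬ G.Adj x y := hc.isIndepSet (Finset.mem_coe.mpr hx) (Finset.mem_coe.mpr hy) hxy.ne
      rw [hG x y hxy] at h9
      have h10 : W x y ≠ 0 := Z_odd htodd (fun j => a x j (f y j))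
      have h11 : W x y ≤ 0 := not_lt.mp h9
      show 0 < (-1 : ℤ) * W x y
      omega

end Pool.Agent.H522R5.CD
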