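import Pool.Agent.H522R5.CD.Defs

namespace Pool.Agent.H522R5.CD

open Finset Pool.Agent.H522R5.CC

theorem Z1_sg_not (b : Bool) : sg (!b) = - sg b := by
  cases b <;> simp [sg]

theorem Z1_sg_sq (b : Bool) : sg b ^ 2 = 1 := by
  cases b <;> simp [sg]

/-- vanishing -/
theorem Z1_van {F : Type} [Fintype F] [DecidableEq F] (i : F) (H : (F → Bool) → ℤ)
    (hH : ∀ e, H (Function.update e i (!e i)) = H e) :
    ∑ e : F → Bool, sg (e i) * H e = 0 := by
  have h : ∑ e : F → Bool, sg (e i) * H e = ∑ e : F → Bool, - (sg (e i) * H e) := by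
    refine Finset.sum_bij' (fun e _ => Function.update e i (!e i))
      (fun e _ => Function.update e i (!e i)) ?_ ?_ ?_ ?_ ?_
    · intro e _; exact Finset.mem_univ _
    · intro e _; exact Finset.mem_univ _
    · intro e _
      simp
    · intro e _
      simp
    · intro e _
      rw [hH, Function.update_self, Z1_sg_not]
      ring
  rw [Finset.sum_neg_distrib] at h
  linarith

theorem Z1_upd {F : Type} [Fintype F] [DecidableEq F] (s : Finset F) (i : F) (hi : i ∉ s)
    (e : F → Bool) (b : Bool) :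
    ∑ j ∈ s, sg (Function.update e i b j) = ∑ j ∈ s, sg (e j) := by
  refine Finset.sum_congr rfl fun j hj => ?_
  rw [Function.update_of_ne]
  rintro rfl
  exact hi hj

theorem Z1_mom2 {F : Type} [Fintype F] [DecidableEq F] (s : Finset F) :
    ∑ e : F → Bool, (∑ i ∈ s, sg (e i)) ^ 2 = s.card * 2 ^ Fintype.card F := by
  induction s using Finset.induction_on with
  | empty => simp
  | insert i s hi ih =>
    have h1 : ∀ e : F → Bool, (∑ j ∈ insert i s, sg (e j)) ^ 2 =
        1 + 2 * (sg (e i) * ∑ j ∈ s, sg (e j)) + (∑ j ∈ s, sg (e j)) ^ 2 := by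
      intro e
      rw [Finset.sum_insert hi]
      linear_combination Z1_sg_sq (e i)
    rw [Finset.sum_congr rfl (fun e _ => h1 e), Finset.sum_add_distrib, Finset.sum_add_distrib,
      ih, ← Finset.mul_sum, Z1_van i (fun e => ∑ j ∈ s, sg (e j)) (fun e => Z1_upd s i hi e _),
      Finset.card_insert_of_notMem hi]
    simp
    ring

theorem Z1_mom4 {F : Type} [Fintype F] [DecidableEq F] (s : Finset F) :
    ∑ e : F → Bool, (∑ i ∈ s, sg (e i)) ^ 4 ≤ 3 * s.card ^ 2 * 2 ^ Fintype.card F := by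
  induction s using Finset.induction_on with
  | empty => simp
  | insert i s hi ih =>
    have h1 : ∀ e : F → Bool, (∑ j ∈ insert i s, sg (e j)) ^ 4 =
        1 + 4 * (sg (e i) * ∑ j ∈ s, sg (e j)) + 6 * (∑ j ∈ s, sg (e j)) ^ 2 +
        4 * (sg (e i) * (∑ j ∈ s, sg (e j)) ^ 3) + (∑ j ∈ s, sg (e j)) ^ 4 := by
      intro e
      rw [Finset.sum_insert hi]
      have h2 := Z1_sg_sq (e i)
      set a := sg (e i)
      set b := ∑ j ∈ s, sg (e j)
      linear_combination (a ^ 2 + 1 + 4 * a * b + 6 * b ^ 2) * h2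
    rw [Finset.sum_congr rfl (fun e _ => h1 e), Finset.sum_add_distrib, Finset.sum_add_distrib,
      Finset.sum_add_distrib, Finset.sum_add_distrib, ← Finset.mul_sum, ← Finset.mul_sum,
      ← Finset.mul_sum, Z1_van i (fun e => ∑ j ∈ s, sg (e j)) (fun e => Z1_upd s i hi e _),
      Z1_van i (fun e => (∑ j ∈ s, sg (e j)) ^ 3)
        (fun e => by simp only [Z1_upd s i hi e _]), Z1_mom2,
      Finset.card_insert_of_notMem hi]
    simp
    have h3 : (0 : ℤ) < 2 ^ Fintype.card F := by positivity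
    nlinarith

theorem Z1 : S_Z1 := by
  intro F _ _ hF
  set n := Fintype.card F with hn
  set X : (F → Bool) → ℤ := fun e => ∑ i, sg (e i) with hX
  have m2 : ∑ e : F → Bool, X e ^ 2 = n * 2 ^ n := by
    have := Z1_mom2 (Finset.univ : Finset F)
    rw [Finset.card_univ] at this
    exact this
  have m4 : ∑ e : F → Bool, X e ^ 4 ≤ 3 * n ^ 2 * 2 ^ n := by
    have := Z1_mom4 (Finset.univ : Finset F)
    rw [Finset.card_univ] at this
    exact this
  set M : Finset (F → Bool) := Finset.univ.filter fun e => (n : ℤ) ≤ 4 * X e ^ 2 with hM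
  have hcardU : ((Finset.univ : Finset (F → Bool)).card : ℤ) = 2 ^ n := by
    rw [Finset.card_univ, Fintype.card_fun, Fintype.card_bool]
    push_cast
    rfl
  set M' : Finset (F → Bool) := Finset.univ.filter fun e => ¬ (n : ℤ) ≤ 4 * X e ^ 2 with hM'
  have hsplit : ∑ e ∈ M, X e ^ 2 + ∑ e ∈ M', X e ^ 2 = ∑ e : F → Bool, X e ^ 2 :=
    Finset.sum_filter_add_sum_filter_not _ _ _
  have hnot : 4 * ∑ e ∈ M', X e ^ 2 ≤ n * 2 ^ n := by
    rw [Finset.mul_sum]
    calc ∑ e ∈ M', 4 * X e ^ 2 ≤ ∑ e ∈ M', (n : ℤ) := by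
          refine Finset.sum_le_sum fun e he => ?_
          rw [hM', Finset.mem_filter] at he
          have := he.2
          push Not at this
          exact this.le
      _ ≤ ∑ e : F → Bool, (n : ℤ) :=
          Finset.sum_le_sum_of_subset_of_nonneg (Finset.filter_subset _ _)
            (fun _ _ _ => by positivity)
      _ = n * 2 ^ n := by
          rw [Finset.sum_const, nsmul_eq_mul, hcardU, mul_comm]
  have hM2 : 3 * (n * 2 ^ n : ℤ) ≤ 4 * ∑ e ∈ M, X e ^ 2 := by
    rw [m2] at hsplit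
    linarith
  have hcs : (∑ e ∈ M, X e ^ 2) ^ 2 ≤ (M.card : ℤ) * ∑ e ∈ M, (X e ^ 2) ^ 2 :=
    sq_sum_le_card_mul_sum_sq
  have hM4 : ∑ e ∈ M, (X e ^ 2) ^ 2 ≤ 3 * n ^ 2 * 2 ^ n := by
    refine le_trans ?_ m4
    calc _ = ∑ e ∈ M, X e ^ 4 := Finset.sum_congr rfl fun e _ => by ring
      _ ≤ _ := Finset.sum_le_sum_of_subset_of_nonneg (Finset.filter_subset _ _)
            (fun _ _ _ => by positivity)
  have hn0 : (0 : ℤ) < n := by exact_mod_cast hF
  have h20 : (0 : ℤ) < 2 ^ n := by positivity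
  have hMM : 3 * 2 ^ n ≤ 16 * (M.card : ℤ) := by
    have h1 : (3 * (n * 2 ^ n : ℤ)) ^ 2 ≤ (4 * ∑ e ∈ M, X e ^ 2) ^ 2 :=
      pow_le_pow_left₀ (by positivity) hM2 2
    have h2 : (M.card : ℤ) * ∑ e ∈ M, (X e ^ 2) ^ 2 ≤ (M.card : ℤ) * (3 * n ^ 2 * 2 ^ n) :=
      mul_le_mul_of_nonneg_left hM4 (by positivity)
    have h3 : (3 * (n ^ 2 * 2 ^ n) : ℤ) * (3 * 2 ^ n) ≤
        (3 * (n ^ 2 * 2 ^ n) : ℤ) * (16 * (M.card : ℤ)) := by nlinarith
    exact le_of_mul_le_mul_left h3 (by positivity)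
  -- the negation symmetry
  have hXneg : ∀ e : F → Bool, X (fun i => !e i) = - X e := by
    intro e
    simp only [hX, Z1_sg_not, Finset.sum_neg_distrib]
  have hsym : (Finset.univ.filter fun e : F → Bool => 0 < X e ∧ (n : ℤ) ≤ 4 * X e ^ 2).card =
      (Finset.univ.filter fun e : F → Bool => X e < 0 ∧ (n : ℤ) ≤ 4 * X e ^ 2).card := by
    refine Finset.card_bij' (fun e _ i => !e i) (fun e _ i => !e i) ?_ ?_ ?_ ?_
    · intro e he
      rw [Finset.mem_filter] at he ⊢
      refine ⟨Finset.mem_univ _, ?_, ?_⟩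
      · rw [hXneg]; linarith [he.2.1]
      · rw [hXneg]; have := he.2.2; nlinarith
    · intro e he
      rw [Finset.mem_filter] at he ⊢
      refine ⟨Finset.mem_univ _, ?_, ?_⟩
      · rw [hXneg]; linarith [he.2.1]
      · rw [hXneg]; have := he.2.2; nlinarith
    · intro e _; simp
    · intro e _; simp
  have hunion : M.card ≤
      (Finset.univ.filter fun e : F → Bool => 0 < X e ∧ (n : ℤ) ≤ 4 * X e ^ 2).card +
      (Finset.univ.filter fun e : F → Bool => X e < 0 ∧ (n : ℤ) ≤ 4 * X e ^ 2).card := by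
    refine le_trans (Finset.card_le_card ?_) (Finset.card_union_le _ _)
    intro e he
    rw [hM, Finset.mem_filter] at he
    rw [Finset.mem_union, Finset.mem_filter, Finset.mem_filter]
    rcases lt_trichotomy (X e) 0 with h | h | h
    · exact Or.inr ⟨Finset.mem_univ _, h, he.2⟩
    · exfalso
      have := he.2
      rw [h] at this
      linarith
    · exact Or.inl ⟨Finset.mem_univ _, h, he.2⟩
  rw [hsym] at hunion
  have hfin : (3 * 2 ^ n : ℤ) ≤ 32 *
      ((Finset.univ.filter fun e : F → Bool => X e < 0 ∧ (n : ℤ) ≤ 4 * X e ^ 2).card : ℤ) := by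
    have : (M.card : ℤ) ≤ 2 *
      ((Finset.univ.filter fun e : F → Bool => X e < 0 ∧ (n : ℤ) ≤ 4 * X e ^ 2).card : ℤ) := by
      have h5 : (M.card : ℤ) ≤
        ((Finset.univ.filter fun e : F → Bool => X e < 0 ∧ (n : ℤ) ≤ 4 * X e ^ 2).card : ℤ) +
        ((Finset.univ.filter fun e : F → Bool => X e < 0 ∧ (n : ℤ) ≤ 4 * X e ^ 2).card : ℤ) := by
        exact_mod_cast hunion
      linarith
    linarith
  exact_mod_cast hfin

end Pool.Agent.H522R5.CD
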