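import Pool.Agent.H522R5.CD.Defs

namespace Pool.Agent.H522R5.CD

open Finset Pool.Agent.H522R5.CC

theorem Z2 : S_Z2 := by
  classical
  intro p g t hp hg ht
  haveI : Fact p.Prime := ⟨hp⟩
  refine ⟨fun y j => ⟨ZMod.val (∑ i : Fin g, y i * ((j : ℕ) : ZMod p) ^ (i : ℕ)),
    ZMod.val_lt _⟩, ?_⟩
  intro y y' hy
  set P : Polynomial (ZMod p) := ∑ i : Fin g, Polynomial.C (y i - y' i) * Polynomial.X ^ (i : ℕ)
    with hP
  have hdeg : P.degree < (g : WithBot ℕ) := Polynomial.degree_sum_fin_lt _
  have hP0 : P ≠ 0 := by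
    intro h0
    apply hy
    funext i
    have h1 : P.coeff (i : ℕ) = y i - y' i := by
      rw [hP, Polynomial.finsetSum_coeff]
      simp only [Polynomial.coeff_C_mul_X_pow]
      rw [Finset.sum_eq_single i]
      · rw [if_pos rfl]
      · intro k _ hk
        rw [if_neg]
        intro h
        exact hk (Fin.ext h.symm)
      · intro h
        exact absurd (Finset.mem_univ _) h
    rw [h0, Polynomial.coeff_zero] at h1
    exact (sub_eq_zero.mp h1.symm)
  have hnat : P.natDegree < g := (Polynomial.natDegree_lt_iff_degree_lt hP0).2 hdeg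
  have hcard : (univ.filter fun j : Fin t =>
      (⟨ZMod.val (∑ i : Fin g, y i * ((j : ℕ) : ZMod p) ^ (i : ℕ)), ZMod.val_lt _⟩ : Fin p) =
      ⟨ZMod.val (∑ i : Fin g, y' i * ((j : ℕ) : ZMod p) ^ (i : ℕ)), ZMod.val_lt _⟩).card ≤
      P.roots.toFinset.card := by
    refine Finset.card_le_card_of_injOn (fun j : Fin t => ((j : ℕ) : ZMod p)) ?_ ?_
    · intro j hj
      rw [Finset.mem_coe, Finset.mem_filter] at hj
      have h1 := ZMod.val_injective p (Fin.mk.inj_iff.mp hj.2)
      rw [Finset.mem_coe, Multiset.mem_toFinset, Polynomial.mem_roots hP0, Polynomial.IsRoot.def,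
        hP, Polynomial.eval_finsetSum]
      simp only [Polynomial.eval_mul, Polynomial.eval_C, Polynomial.eval_pow, Polynomial.eval_X,
        sub_mul]
      rw [Finset.sum_sub_distrib, h1, sub_self]
    · intro j _ j' _ h
      have h1 : ((j : ℕ) : ZMod p) = ((j' : ℕ) : ZMod p) := h
      rw [ZMod.natCast_eq_natCast_iff'] at h1
      rw [Nat.mod_eq_of_lt (by omega), Nat.mod_eq_of_lt (by omega)] at h1
      exact Fin.ext h1
  have h2 : P.roots.toFinset.card ≤ P.natDegree :=
    (Multiset.toFinset_card_le _).trans (Polynomial.card_roots' P)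
  exact lt_of_le_of_lt (hcard.trans h2) hnat

end Pool.Agent.H522R5.CD
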