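import Pool.Agent.H522R5.CD.Defs

namespace Pool.Agent.H522R5.CD

open Finset Pool.Agent.H522R5.CC

theorem Z3_sg_not (b : Bool) : sg (!b) = - sg b := by
  cases b <;> simp [sg]

theorem Z3_sg_abs (b : Bool) : |sg b| ≤ 1 := by
  cases b <;> simp [sg]

theorem Z3_sgn (Z1 : S_Z1) (F : Type) [Fintype F] [DecidableEq F] (hF : 1 ≤ Fintype.card F)
    (σ : ℤ) (hσ : σ = 1 ∨ σ = -1) :
    3 * 2 ^ Fintype.card F ≤ 32 * ((Finset.univ : Finset (F → Bool)).filter fun e =>
    σ * (∑ i, sg (e i)) < 0 ∧ (Fintype.card F : ℤ) ≤ 4 * (∑ i, sg (e i)) ^ 2).card := by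
  have h := Z1 F hF
  rcases hσ with rfl | rfl
  · simpa only [one_mul] using h
  · have hneg : ∀ e : F → Bool, ∑ i, sg (!e i) = - ∑ i, sg (e i) := by
      intro e
      simp only [Z3_sg_not, Finset.sum_neg_distrib]
    have hc : ((Finset.univ : Finset (F → Bool)).filter fun e =>
        (∑ i, sg (e i)) < 0 ∧ (Fintype.card F : ℤ) ≤ 4 * (∑ i, sg (e i)) ^ 2).card =
        ((Finset.univ : Finset (F → Bool)).filter fun e =>
        -1 * (∑ i, sg (e i)) < 0 ∧ (Fintype.card F : ℤ) ≤ 4 * (∑ i, sg (e i)) ^ 2).card := by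
      refine Finset.card_bij' (fun e _ i => !e i) (fun e _ i => !e i) ?_ ?_ ?_ ?_
      · intro e he
        rw [Finset.mem_filter] at he ⊢
        refine ⟨Finset.mem_univ _, ?_, ?_⟩
        · rw [hneg]; linarith [he.2.1]
        · rw [hneg]; have := he.2.2; nlinarith
      · intro e he
        rw [Finset.mem_filter] at he ⊢
        refine ⟨Finset.mem_univ _, ?_, ?_⟩
        · rw [hneg]; linarith [he.2.1]
        · rw [hneg]; have := he.2.2; nlinarith
      · intro e _; simp
      · intro e _; simp
    rw [hc] at h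
    exact h

/-- the abstract counting step -/
theorem Z3_count {E A : Type} [Fintype E] [Fintype A] [DecidableEq A] [Nonempty E]
    (R : A → E) (T : E → A → A)
    (h1 : ∀ e a, R (T e a) = e) (h2 : ∀ e a, T (R a) (T e a) = a)
    (G G' : Finset A) (hG : ∀ e a, T e a ∈ G' → a ∈ G)
    (hq : ∀ a ∈ G, 32 * ((Finset.univ : Finset E).filter fun e => T e a ∈ G').card ≤
      29 * Fintype.card E) :
    32 * G'.card ≤ 29 * G.card := by
  have hN1 : ((Finset.univ : Finset (E × A)).filter fun q => T q.1 q.2 ∈ G').card =
      ((Finset.univ : Finset E) ×ˢ G').card := by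
    refine Finset.card_bij' (fun q _ => (R q.2, T q.1 q.2)) (fun q _ => (R q.2, T q.1 q.2))
      ?_ ?_ ?_ ?_
    · intro q hq
      rw [Finset.mem_filter] at hq
      rw [Finset.mem_product]
      exact ⟨Finset.mem_univ _, hq.2⟩
    · intro q hq
      rw [Finset.mem_product] at hq
      rw [Finset.mem_filter]
      refine ⟨Finset.mem_univ _, ?_⟩
      show T (R q.2) (T q.1 q.2) ∈ G'
      rw [h2]
      exact hq.2
    · intro q _
      show (R (T q.1 q.2), T (R q.2) (T q.1 q.2)) = q
      rw [h1, h2]
    · intro q _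
      show (R (T q.1 q.2), T (R q.2) (T q.1 q.2)) = q
      rw [h1, h2]
  rw [Finset.card_product, Finset.card_univ] at hN1
  have hN2 : ((Finset.univ : Finset (E × A)).filter fun q => T q.1 q.2 ∈ G').card =
      ∑ a : A, ((Finset.univ : Finset E).filter fun e => T e a ∈ G').card := by
    rw [Finset.card_filter, Fintype.sum_prod_type_right]
    refine Finset.sum_congr rfl fun a _ => ?_
    rw [Finset.card_filter]
  have hN3 : 32 * ∑ a : A, ((Finset.univ : Finset E).filter fun e => T e a ∈ G').card ≤
      29 * Fintype.card E * G.card := by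
    rw [Finset.mul_sum]
    calc ∑ a : A, 32 * ((Finset.univ : Finset E).filter fun e => T e a ∈ G').card ≤
          ∑ a : A, (if a ∈ G then 29 * Fintype.card E else 0) := by
          refine Finset.sum_le_sum fun a _ => ?_
          by_cases ha : a ∈ G
          · rw [if_pos ha]
            exact hq a ha
          · rw [if_neg ha]
            have : ((Finset.univ : Finset E).filter fun e => T e a ∈ G') = ∅ := by
              rw [Finset.filter_eq_empty_iff]
              intro e _ he
              exact ha (hG e a he)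
            rw [this]
            simp
      _ = 29 * Fintype.card E * G.card := by
          rw [Finset.sum_ite_mem, Finset.univ_inter, Finset.sum_const, smul_eq_mul, mul_comm]
  have hE : 0 < Fintype.card E := Fintype.card_pos
  rw [← hN2, hN1] at hN3
  refine le_of_mul_le_mul_left ?_ hE
  calc Fintype.card E * (32 * G'.card) = 32 * (Fintype.card E * G'.card) := by ring
    _ ≤ 29 * Fintype.card E * G.card := hN3
    _ = Fintype.card E * (29 * G.card) := by ring

theorem Z3_step (Z1 : S_Z1) (t m h g : ℕ) (f : Fin h → Fin t → Fin m) (σ : ℤ)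
    (hσ : σ = 1 ∨ σ = -1)
    (hf : ∀ y y', y ≠ y' →
      ((Finset.univ : Finset (Fin t)).filter fun j => f y j = f y' j).card ≤ g)
    (ht : 16 * (g * h) ^ 2 + 1 ≤ t) (y : Fin h) :
    32 * ((Finset.univ : Finset (Fin t → Fin m → Bool)).filter fun a =>
      ∀ y' : Fin h, y'.val < y.val + 1 → 0 < σ * ∑ j, sg (a j (f y' j))).card ≤
    29 * ((Finset.univ : Finset (Fin t → Fin m → Bool)).filter fun a =>
      ∀ y' : Fin h, y'.val < y.val → 0 < σ * ∑ j, sg (a j (f y' j))).card := by
  classical
  set Fr : Finset (Fin t) := Finset.univ.filter fun j => ∀ y' : Fin h, y'.val < y.val →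
    f y' j ≠ f y j with hFr
  have hcompl : (Frᶜ).card ≤ g * h := by
    have hsub : Frᶜ ⊆ (Finset.univ.filter fun y' : Fin h => y'.val < y.val).biUnion
        (fun y' => Finset.univ.filter fun j => f y' j = f y j) := by
      intro j hj
      rw [Finset.mem_compl, hFr, Finset.mem_filter] at hj
      push Not at hj
      obtain ⟨y', h1, h2⟩ := hj (Finset.mem_univ _)
      rw [Finset.mem_biUnion]
      exact ⟨y', Finset.mem_filter.mpr ⟨Finset.mem_univ _, h1⟩,
        Finset.mem_filter.mpr ⟨Finset.mem_univ _, h2⟩⟩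
    refine (Finset.card_le_card hsub).trans (Finset.card_biUnion_le.trans ?_)
    calc ∑ y' ∈ Finset.univ.filter (fun y' : Fin h => y'.val < y.val),
          (Finset.univ.filter fun j => f y' j = f y j).card ≤
          ∑ y' ∈ Finset.univ.filter (fun y' : Fin h => y'.val < y.val), g := by
          refine Finset.sum_le_sum fun y' hy' => ?_
          rw [Finset.mem_filter] at hy'
          refine hf y' y ?_
          rintro rfl
          exact lt_irrefl _ hy'.2
      _ = (Finset.univ.filter (fun y' : Fin h => y'.val < y.val)).card * g := by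
          rw [Finset.sum_const, smul_eq_mul]
      _ ≤ h * g := by
          refine Nat.mul_le_mul_right _ ?_
          refine (Finset.card_filter_le _ _).trans ?_
          rw [Finset.card_univ, Fintype.card_fin]
      _ = g * h := mul_comm _ _
  have hcard : Fr.card + (Frᶜ).card = t := by
    rw [Finset.card_add_card_compl, Fintype.card_fin]
  have hr : ∀ r : ℕ, r ≤ r ^ 2 := fun r => by nlinarith [Nat.zero_le r, sq_nonneg ((r : ℤ) - 1)]
  have hFrc : 4 * (g * h) ^ 2 + 1 ≤ Fr.card := by
    have := hr (g * h)
    omega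
  have hF1 : 1 ≤ Fintype.card Fr := by
    rw [Fintype.card_coe]
    omega
  have key := Z3_sgn Z1 Fr hF1 σ hσ
  have hEcard : Fintype.card (Fr → Bool) = 2 ^ Fintype.card Fr := by
    rw [Fintype.card_fun, Fintype.card_bool]
  refine Z3_count (E := Fr → Bool) (A := Fin t → Fin m → Bool)
    (fun a j => a j (f y j))
    (fun e a j c => if hj : j ∈ Fr then (if c = f y j then e ⟨j, hj⟩ else a j c) else a j c)
    ?_ ?_ _ _ ?_ ?_
  · intro e a
    funext ⟨j, hj⟩
    simp only [dif_pos hj, if_true]
  · intro e a
    funext j c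
    by_cases hj : j ∈ Fr
    · by_cases hc : c = f y j
      · subst hc
        simp only [dif_pos hj, if_true]
      · simp only [dif_pos hj, if_neg hc]
    · simp only [dif_neg hj]
  · intro e a ha
    rw [Finset.mem_filter] at ha ⊢
    refine ⟨Finset.mem_univ _, fun y' hy' => ?_⟩
    have h5 := ha.2 y' (by omega)
    have h6 : ∀ j, (if hj : j ∈ Fr then (if f y' j = f y j then e ⟨j, hj⟩ else a j (f y' j))
        else a j (f y' j)) = a j (f y' j) := by
      intro j
      by_cases hj : j ∈ Fr
      · have hne : f y' j ≠ f y j := by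
          rw [hFr, Finset.mem_filter] at hj
          exact hj.2 y' hy'
        rw [dif_pos hj, if_neg hne]
      · rw [dif_neg hj]
    simp only [h6] at h5
    exact h5
  · intro a _
    have hdisj : ((Finset.univ : Finset (Fr → Bool)).filter fun e =>
        (fun j c => if hj : j ∈ Fr then (if c = f y j then e ⟨j, hj⟩ else a j c) else a j c) ∈
        ((Finset.univ : Finset (Fin t → Fin m → Bool)).filter fun a =>
          ∀ y' : Fin h, y'.val < y.val + 1 → 0 < σ * ∑ j, sg (a j (f y' j)))).card +
        ((Finset.univ : Finset (Fr → Bool)).filter fun e =>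
    σ * (∑ i, sg (e i)) < 0 ∧ (Fintype.card Fr : ℤ) ≤ 4 * (∑ i, sg (e i)) ^ 2).card ≤
        Fintype.card (Fr → Bool) := by
      rw [← Finset.card_union_of_disjoint]
      · rw [← Finset.card_univ]
        exact Finset.card_le_card (Finset.subset_univ _)
      · rw [Finset.disjoint_left]
        intro e he he'
        rw [Finset.mem_filter] at he he'
        have h7 := he.2
        rw [Finset.mem_filter] at h7
        have h8 := h7.2 y (by omega)
        rw [← Finset.sum_add_sum_compl Fr] at h8
        have h9 : ∑ j ∈ Fr, sg (if hj : j ∈ Fr then (if f y j = f y j then e ⟨j, hj⟩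
            else a j (f y j)) else a j (f y j)) = ∑ i : Fr, sg (e i) := by
          rw [← Finset.sum_coe_sort Fr]
          refine Finset.sum_congr rfl fun i _ => ?_
          rw [dif_pos i.2, if_pos rfl]
        have h10 : |∑ j ∈ Frᶜ, sg (if hj : j ∈ Fr then (if f y j = f y j then e ⟨j, hj⟩
            else a j (f y j)) else a j (f y j))| ≤ (g * h : ℕ) := by
          refine (Finset.abs_sum_le_sum_abs _ _).trans ?_
          refine (Finset.sum_le_sum (fun j _ => Z3_sg_abs _)).trans ?_
          rw [Finset.sum_const, nsmul_eq_mul, mul_one]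
          exact_mod_cast hcompl
        rw [h9] at h8
        set X := ∑ i : Fr, sg (e i) with hX
        set O := ∑ j ∈ Frᶜ, sg (if hj : j ∈ Fr then (if f y j = f y j then e ⟨j, hj⟩
            else a j (f y j)) else a j (f y j)) with hO
        obtain ⟨h11, h12⟩ := he'.2
        rw [Fintype.card_coe] at h12
        have h13 : (4 * ((g * h : ℕ) : ℤ) ^ 2 + 1) ≤ (Fr.card : ℤ) := by exact_mod_cast hFrc
        have h14 : ((g * h : ℕ) : ℤ) ^ 2 < X ^ 2 := by linarith
        have h15 : (0 : ℤ) ≤ ((g * h : ℕ) : ℤ) := by positivity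
        have h16 := abs_le.mp h10
        rcases hσ with rfl | rfl
        · nlinarith
        · nlinarith
    have h20 := hdisj
    rw [hEcard] at h20 ⊢
    have h21 := key
    omega

theorem Z3 (Z1 : S_Z1) : S_Z3 := by
  intro t m h g f σ hσ hf ht
  have key : ∀ s : ℕ, s ≤ h → 32 ^ s *
      ((Finset.univ : Finset (Fin t → Fin m → Bool)).filter fun a =>
      ∀ y' : Fin h, y'.val < s → 0 < σ * ∑ j, sg (a j (f y' j))).card ≤
      29 ^ s * 2 ^ (t * m) := by
    intro s
    induction s with
    | zero =>
      intro _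
      rw [pow_zero, pow_zero, one_mul, one_mul]
      refine (Finset.card_filter_le _ _).trans ?_
      rw [Finset.card_univ, Fintype.card_fun, Fintype.card_fun, Fintype.card_bool,
        Fintype.card_fin, Fintype.card_fin, ← pow_mul, mul_comm]
    | succ s ih =>
      intro hs
      have h1 := ih (by omega)
      have h2 := Z3_step Z1 t m h g f σ hσ hf ht ⟨s, hs⟩
      simp only at h2
      calc 32 ^ (s + 1) * ((Finset.univ : Finset (Fin t → Fin m → Bool)).filter fun a =>
            ∀ y' : Fin h, y'.val < s + 1 → 0 < σ * ∑ j, sg (a j (f y' j))).card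
          = 32 ^ s * (32 * ((Finset.univ : Finset (Fin t → Fin m → Bool)).filter fun a =>
            ∀ y' : Fin h, y'.val < s + 1 → 0 < σ * ∑ j, sg (a j (f y' j))).card) := by ring
        _ ≤ 32 ^ s * (29 * ((Finset.univ : Finset (Fin t → Fin m → Bool)).filter fun a =>
            ∀ y' : Fin h, y'.val < s → 0 < σ * ∑ j, sg (a j (f y' j))).card) :=
            Nat.mul_le_mul_left _ h2
        _ = 29 * (32 ^ s * ((Finset.univ : Finset (Fin t → Fin m → Bool)).filter fun a =>
            ∀ y' : Fin h, y'.val < s → 0 < σ * ∑ j, sg (a j (f y' j))).card) := by ring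
        _ ≤ 29 * (29 ^ s * 2 ^ (t * m)) := Nat.mul_le_mul_left _ h1
        _ = 29 ^ (s + 1) * 2 ^ (t * m) := by ring
  have h3 := key h le_rfl
  have h4 : ((Finset.univ : Finset (Fin t → Fin m → Bool)).filter fun a =>
      ∀ y' : Fin h, y'.val < h → 0 < σ * ∑ j, sg (a j (f y' j))) =
      ((Finset.univ : Finset (Fin t → Fin m → Bool)).filter fun a =>
      ∀ y, 0 < σ * ∑ j, sg (a j (f y j))) := by
    refine Finset.filter_congr fun a _ => ?_
    exact ⟨fun H y => H y y.2, fun H y _ => H y⟩
  rw [h4] at h3
  exact h3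

end Pool.Agent.H522R5.CD
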