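import Pool.Agent.H522R5.CD.Defs

namespace Pool.Agent.H522R5.CD

open Finset Pool.Agent.H522R5.CC

theorem Z4_card {A : Type} [Fintype A] [DecidableEq A] {N h : ℕ} (T : Finset A)
    (X : Finset (Fin N)) (hX : X.card = h) (q : ℝ) (hq : 0 ≤ q)
    (hT : (T.card : ℝ) ≤ q * Fintype.card A) :
    (((Fintype.piFinset fun x : Fin N => if x ∈ X then T else Finset.univ).card : ℕ) : ℝ) ≤
      q ^ h * (Fintype.card A : ℝ) ^ N := by
  classical
  rw [Fintype.card_piFinset]
  have h1 : (∏ x : Fin N, (if x ∈ X then T else (Finset.univ : Finset A)).card) =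
      T.card ^ h * (Fintype.card A) ^ (N - h) := by
    have h2 : ∀ x : Fin N, (if x ∈ X then T else (Finset.univ : Finset A)).card =
        if x ∈ X then T.card else Fintype.card A := by
      intro x
      split_ifs <;> simp
    simp_rw [h2]
    rw [Finset.prod_ite]
    simp only [Finset.prod_const]
    have h3 : (Finset.univ.filter fun x : Fin N => x ∈ X) = X := by ext; simp
    have h4 : (Finset.univ.filter fun x : Fin N => ¬ x ∈ X).card = N - h := by
      have h5 : (Finset.univ.filter fun x : Fin N => ¬ x ∈ X) = Xᶜ := by ext; simp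
      rw [h5, Finset.card_compl, Fintype.card_fin, hX]
    rw [h3, h4, hX]
  rw [h1]
  have hle : h ≤ N := by
    rw [← hX]
    simpa using Finset.card_le_univ X
  push_cast
  calc (T.card : ℝ) ^ h * (Fintype.card A : ℝ) ^ (N - h)
      ≤ (q * Fintype.card A) ^ h * (Fintype.card A : ℝ) ^ (N - h) := by
        apply mul_le_mul_of_nonneg_right _ (by positivity)
        exact pow_le_pow_left₀ (by positivity) hT h
    _ = q ^ h * (Fintype.card A : ℝ) ^ N := by
        rw [mul_pow, mul_assoc, ← pow_add]
        congr 2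
        omega

theorem Z4 : S_Z4 := by
  classical
  intro A I _ _ _ _ T N h q hq hT hlt
  by_contra hcon
  push Not at hcon
  set Bad : I × {X : Finset (Fin N) // X.card = h} → Finset (Fin N → A) := fun iX =>
    Fintype.piFinset fun x : Fin N => if x ∈ iX.2.1 then T iX.1 else Finset.univ with hBad
  have hcover : (Finset.univ : Finset (Fin N → A)) ⊆ Finset.univ.biUnion Bad := by
    intro a _
    obtain ⟨i, hi⟩ := hcon a
    obtain ⟨X, hXs, hXc⟩ := Finset.exists_subset_card_eq hi
    rw [Finset.mem_biUnion]
    refine ⟨(i, ⟨X, hXc⟩), Finset.mem_univ _, ?_⟩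
    simp only [hBad, Fintype.mem_piFinset]
    intro x
    split_ifs with hx
    · have := hXs hx
      simpa using this
    · exact Finset.mem_univ _
  have hcard : (Fintype.card A : ℝ) ^ N ≤ ∑ iX, ((Bad iX).card : ℝ) := by
    have h1 := (Finset.card_le_card hcover).trans Finset.card_biUnion_le
    rw [Finset.card_univ, Fintype.card_fun, Fintype.card_fin] at h1
    exact_mod_cast h1
  have hsum : ∑ iX, ((Bad iX).card : ℝ) ≤
      (Fintype.card I : ℝ) * (N : ℝ) ^ h * (q ^ h * (Fintype.card A : ℝ) ^ N) := by
    calc ∑ iX, ((Bad iX).card : ℝ) ≤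
        ∑ _iX : I × {X : Finset (Fin N) // X.card = h}, q ^ h * (Fintype.card A : ℝ) ^ N := by
          apply Finset.sum_le_sum
          intro iX _
          exact Z4_card (T iX.1) iX.2.1 iX.2.2 q hq (hT iX.1)
      _ = ((Fintype.card (I × {X : Finset (Fin N) // X.card = h}) : ℕ) : ℝ) *
          (q ^ h * (Fintype.card A : ℝ) ^ N) := by
          rw [Finset.sum_const, nsmul_eq_mul, Finset.card_univ]
      _ ≤ (Fintype.card I : ℝ) * (N : ℝ) ^ h * (q ^ h * (Fintype.card A : ℝ) ^ N) := by
          apply mul_le_mul_of_nonneg_right _ (by positivity)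
          rw [Fintype.card_prod]
          have h2 : Fintype.card {X : Finset (Fin N) // X.card = h} = N.choose h := by
            rw [Fintype.card_finset_len, Fintype.card_fin]
          rw [h2]
          push_cast
          apply mul_le_mul_of_nonneg_left _ (by positivity)
          have h3 := Nat.choose_le_pow N h
          exact_mod_cast h3
  have hApos : (0 : ℝ) < (Fintype.card A : ℝ) ^ N := by
    have : 0 < Fintype.card A := Fintype.card_pos
    positivity
  have hfin : (Fintype.card I : ℝ) * (N : ℝ) ^ h * (q ^ h * (Fintype.card A : ℝ) ^ N) <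
      (Fintype.card A : ℝ) ^ N := by
    have := mul_lt_mul_of_pos_right hlt hApos
    calc (Fintype.card I : ℝ) * (N : ℝ) ^ h * (q ^ h * (Fintype.card A : ℝ) ^ N)
        = (Fintype.card I : ℝ) * (N : ℝ) ^ h * q ^ h * (Fintype.card A : ℝ) ^ N := by ring
      _ < 1 * (Fintype.card A : ℝ) ^ N := this
      _ = _ := one_mul _
  linarith

end Pool.Agent.H522R5.CD
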