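import Pool.Agent.H522R5.CD.Defs

/-! Task Z5: the sign of a sum of `t` table entries has small PP cost. -/

namespace Pool.Agent.H522R5.CD

open Finset Pool.Agent.H522R5.CC

/-- Bob sends binary digits, then Alice answers -/
def Z5_build {V : Type} (g : ℕ → V → Bool) (bit : ℕ → V → Bool) : ℕ → ℕ → Prot V
  | 0, z => Prot.alice (g z) (Prot.leaf false) (Prot.leaf true)
  | i + 1, z => Prot.bob (bit i) (Z5_build g bit i z) (Z5_build g bit i (z + 2 ^ i))

theorem Z5_bits {V : Type} (g : ℕ → V → Bool) (bit : ℕ → V → Bool) (i : ℕ) :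
    ∀ z, (Z5_build g bit i z).bits = i + 1 := by
  induction i with
  | zero => intro z; simp [Z5_build, Prot.bits]
  | succ i ih => intro z; simp [Z5_build, Prot.bits, ih]

theorem Z5_run {V : Type} (g : ℕ → V → Bool) (val : V → ℕ) (i : ℕ) :
    ∀ z x y, (Z5_build g (fun k y => (val y).testBit k) i z).run x y =
      g (z + val y % 2 ^ i) x := by
  induction i with
  | zero =>
    intro z x y
    simp only [Z5_build, Prot.run, pow_zero, Nat.mod_one, add_zero]
    cases g z x <;> simp
  | succ i ih =>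
    intro z x y
    simp only [Z5_build, Prot.run]
    rw [ih, ih, Nat.mod_pow_succ]
    have h2 : (val y).testBit i = decide ((val y) / 2 ^ i % 2 = 1) :=
      Nat.testBit_eq_decide_div_mod_eq
    rw [h2]
    rcases Nat.mod_two_eq_zero_or_one (val y / 2 ^ i) with h | h
    · simp [h]
    · simp only [h, decide_true, if_true, mul_one]
      congr 1
      ring

theorem Z5 : S_Z5 := by
  intro N t m u v a f G ht hm hv hG
  have ht0 : 0 < t := ht.pos
  have htR : (0 : ℝ) < (t : ℝ) := by exact_mod_cast ht0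
  set P : Fin t → Prot (Fin N) := fun j =>
    Z5_build (fun z x => if h : z < m then a x j ⟨z, h⟩ else false)
      (fun k y => (f y j).val.testBit k) u 0 with hP
  have hrun : ∀ j x y, (P j).run x y = a x j (f y j) := by
    intro j x y
    rw [hP]
    simp only
    rw [Z5_run (fun z x => if h : z < m then a x j ⟨z, h⟩ else false) (fun y => (f y j).val) u 0 x y]
    have h1 : (f y j).val % 2 ^ u = (f y j).val := Nat.mod_eq_of_lt ((f y j).isLt.trans_le hm)
    rw [h1, zero_add, dif_pos (f y j).isLt]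
  have hacc : ∀ x y, acc (fun _ : Fin t => (1 : ℝ) / t) P x y =
      1 / 2 + ((∑ j, sg (a x j (f y j)) : ℤ) : ℝ) / (2 * t) := by
    intro x y
    unfold acc
    have h2 : ((∑ j, sg (a x j (f y j)) : ℤ) : ℝ) =
        2 * (∑ j : Fin t, (if (P j).run x y = true then (1 : ℝ) else 0)) - t := by
      push_cast
      rw [Finset.mul_sum]
      have h3 : (t : ℝ) = ∑ j : Fin t, (1 : ℝ) := by simp
      rw [h3, ← Finset.sum_sub_distrib]
      refine Finset.sum_congr rfl (fun j _ => ?_)
      rw [hrun]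
      unfold sg
      split_ifs <;> norm_num
    rw [← Finset.mul_sum, h2]
    field_simp
    ring
  have hodd : ∀ x y, Odd (∑ j, sg (a x j (f y j)) : ℤ) := by
    intro x y
    have h2 : (∑ j, sg (a x j (f y j)) : ℤ) =
        2 * (∑ j : Fin t, (if a x j (f y j) = true then (1 : ℤ) else 0)) - t := by
      rw [Finset.mul_sum]
      have h3 : (t : ℤ) = ∑ j : Fin t, (1 : ℤ) := by simp
      rw [h3, ← Finset.sum_sub_distrib]
      refine Finset.sum_congr rfl (fun j _ => ?_)
      unfold sg
      split_ifs <;> norm_num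
    rw [h2]
    obtain ⟨s, hs⟩ := ht
    refine ⟨(∑ j : Fin t, (if a x j (f y j) = true then (1 : ℤ) else 0)) - s - 1, ?_⟩
    have hs' : (t : ℤ) = 2 * s + 1 := by exact_mod_cast hs
    linarith
  have hinv : (1 / 2 : ℝ) ^ v ≤ 1 / (2 * t) := by
    rw [one_div_pow]
    refine one_div_le_one_div_of_le (by positivity) ?_
    exact_mod_cast hv
  refine ⟨v, u + 1, Fin t, inferInstance, fun _ => (1 : ℝ) / t, P, by omega,
    fun _ => by positivity, ?_, fun j => ?_, fun x y hxy => ⟨fun h => ?_, fun h => ?_⟩⟩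
  · rw [Finset.sum_const, Finset.card_univ, Fintype.card_fin, nsmul_eq_mul]
    field_simp
  · rw [hP]
    exact (Z5_bits _ _ u 0).le
  · rw [hacc]
    have h1 := (hG x y hxy).1 h
    have h2 : (1 : ℝ) ≤ ((∑ j, sg (a x j (f y j)) : ℤ) : ℝ) := by exact_mod_cast h1
    have h3 : 1 / (2 * (t : ℝ)) ≤ ((∑ j, sg (a x j (f y j)) : ℤ) : ℝ) / (2 * t) :=
      div_le_div_of_nonneg_right h2 (by positivity)
    linarith
  · rw [hacc]
    have h1 : ¬ 0 < ∑ j, sg (a x j (f y j)) := fun h' => h ((hG x y hxy).2 h')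
    have h0 : (∑ j, sg (a x j (f y j)) : ℤ) ≤ -1 := by
      obtain ⟨s, hs⟩ := hodd x y
      omega
    have h2 : ((∑ j, sg (a x j (f y j)) : ℤ) : ℝ) ≤ -1 := by exact_mod_cast h0
    have h3 : ((∑ j, sg (a x j (f y j)) : ℤ) : ℝ) / (2 * t) ≤ (-1) / (2 * t) :=
      div_le_div_of_nonneg_right h2 (by positivity)
    have h4 : (-1 : ℝ) / (2 * t) = -(1 / (2 * t)) := by ring
    rw [h4] at h3
    linarith

end Pool.Agent.H522R5.CD
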