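import Pool.Agent.H522R5.CD.Defs

namespace Pool.Agent.H522R5.CD

open Finset Pool.Agent.H522R5.CC

theorem Z6_id (h : ℕ) (N c : ℝ) :
    (2 * N ^ h * N ^ h * (c ^ h) ^ h) ^ 8 = 256 * (N ^ 16) ^ h * (c ^ 8) ^ (h * h) := by
  ring

theorem Z6 : S_Z6 := by
  intro h hh
  constructor
  · obtain ⟨N, hN⟩ : ∃ N : ℝ, N = (2 : ℝ) ^ (h / 16) := ⟨_, rfl⟩
    obtain ⟨c, hc⟩ : ∃ c : ℝ, c = 29 / 32 := ⟨_, rfl⟩
    rw [← hN, ← hc]
    have hN0 : 0 < N := by rw [hN]; positivity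
    have hc0 : 0 < c := by rw [hc]; norm_num
    have h1 : N ^ 16 ≤ 2 ^ h := by
      rw [hN, ← pow_mul]
      exact pow_le_pow_right₀ (by norm_num) (Nat.div_mul_le_self h 16)
    have h2 : (N ^ 16) ^ h ≤ 2 ^ (h * h) := by
      calc (N ^ 16) ^ h ≤ (2 ^ h) ^ h := pow_le_pow_left₀ (by positivity) h1 h
        _ = 2 ^ (h * h) := by rw [← pow_mul]
    have h3 : (2 * N ^ h * N ^ h * (c ^ h) ^ h) ^ 8 ≤ 256 * (2 * c ^ 8) ^ (h * h) := by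
      rw [Z6_id, mul_pow, mul_assoc]
      refine mul_le_mul_of_nonneg_left ?_ (by norm_num)
      exact mul_le_mul_of_nonneg_right h2 (by positivity)
    have hq0 : 0 ≤ 2 * c ^ 8 := by positivity
    have hq1 : 2 * c ^ 8 ≤ 1 := by rw [hc]; norm_num
    have hq8 : (2 * c ^ 8) ^ 8 ≤ 1 / 2 := by rw [hc]; norm_num
    have h4 : (2 * c ^ 8) ^ (h * h) ≤ (1 / 2) ^ 32 := by
      calc (2 * c ^ 8) ^ (h * h) ≤ (2 * c ^ 8) ^ 256 :=
            pow_le_pow_of_le_one hq0 hq1 (by nlinarith)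
        _ = ((2 * c ^ 8) ^ 8) ^ 32 := by rw [← pow_mul]
        _ ≤ (1 / 2) ^ 32 := pow_le_pow_left₀ (by positivity) hq8 32
    have h5 : (2 * N ^ h * N ^ h * (c ^ h) ^ h) ^ 8 < 1 := by
      calc (2 * N ^ h * N ^ h * (c ^ h) ^ h) ^ 8 ≤ 256 * (2 * c ^ 8) ^ (h * h) := h3
        _ ≤ 256 * (1 / 2) ^ 32 := mul_le_mul_of_nonneg_left h4 (by norm_num)
        _ < 1 := by norm_num
    by_contra h6
    push Not at h6
    have h7 := one_le_pow₀ (n := 8) h6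
    linarith
  · obtain ⟨l, hl⟩ : ∃ l, l = Nat.log 2 h := ⟨_, rfl⟩
    rw [← hl]
    have h1 : h < 2 ^ (l + 1) := by
      rw [hl]
      exact Nat.lt_pow_succ_log_self (by norm_num) h
    have h2 : (h + 1) ^ 4 ≤ (2 ^ (l + 1)) ^ 4 := Nat.pow_le_pow_left h1 4
    have h3 : 2 * (16 * h ^ 4 + 1) ≤ 32 * (h + 1) ^ 4 := by
      have h4 : h ^ 4 + 1 ≤ (h + 1) ^ 4 := by
        have : (h + 1) ^ 4 = h ^ 4 + 1 + (4 * h ^ 3 + 6 * h ^ 2 + 4 * h) := by ring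
        omega
      omega
    calc 2 * (16 * h ^ 4 + 1) ≤ 32 * (h + 1) ^ 4 := h3
      _ ≤ 32 * (2 ^ (l + 1)) ^ 4 := Nat.mul_le_mul_left 32 h2
      _ = 2 ^ (4 * l + 9) := by ring

end Pool.Agent.H522R5.CD
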